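import Pool.Agent.U775.CG.Exist
import Pool.Agent.H458R4.Cohen

set_option autoImplicit false

/-!
# Adding Cohen reals forces the hypothesis
-/

namespace Pool.Agent.U775.CG

open Cardinal Set
open Pool.Agent.Helper126.Sus.Forc
open Pool.Agent.W876.Two.Gen (IsFun Ccc exists_antichain meets_fground mem_fand not_onto)
open Pool.Agent.H458R4.Cohen (Fn compat_iff)

section

variable {K : Type}

theorem ccc_Fn : Ccc (Fn K) := by
  intro Y f hY
  by_contra hcon
  push Not at hcon
  have hinj : Function.Injective f := by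
    intro y y' h
    by_contra hne
    exact hcon y y' hne (f y) le_rfl (h ▸ le_rfl)
  have h1 : (Set.range f).Countable := by
    refine Pool.Agent.H458R4.Cohen.ccc _ ?_
    rintro _ ⟨y, rfl⟩ _ ⟨y', rfl⟩ ⟨s, h1, h2⟩
    by_contra hne
    exact hcon y y' (fun h => hne (h ▸ rfl)) s h1 h2
  have := h1.to_subtype
  exact hY (Function.Injective.countable (f := fun y => (⟨f y, y, rfl⟩ : Set.range f))
    fun y y' h => hinj (congrArg Subtype.val h))

/-- the Cohen real with the index `α` -/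
def cr (α : K) (n : ℕ) : Set (Fn K) := {p | ((α, n), true) ∈ p.g}

open Classical in
/-- a condition can be extended such that it contains exactly the digits below `N` of the Cohen
real with the index `α` -/
theorem clean (α : K) (p : Fn K) : ∃ q ≤ p, ∃ s : List Bool,
    (∀ n < s.length, ((α, n), s.getD n false) ∈ q.g) ∧
    ∀ n ≥ s.length, ∀ b, ((α, n), b) ∉ q.g := by
  obtain ⟨N, hN⟩ : ∃ N, ∀ n ≥ N, ∀ b, ((α, n), b) ∉ p.g := by
    obtain ⟨N, hN⟩ := (p.g.image fun x => x.1.2).finite_toSet.bddAbove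
    refine ⟨N + 1, fun n hn b h => ?_⟩
    have h1 : n ∈ (↑(p.g.image fun x => x.1.2) : Set ℕ) := by
      rw [Finset.mem_coe, Finset.mem_image]
      exact ⟨_, h, rfl⟩
    have := hN h1
    omega
  let u : ℕ → Bool := fun n => decide (((α, n), true) ∈ p.g)
  let G : Finset ((K × ℕ) × Bool) := (Finset.range N).image fun n => ((α, n), u n)
  have hG : ∀ a b, (a, b) ∈ G ↔ ∃ n < N, a = (α, n) ∧ b = u n := by
    intro a b
    simp only [G, Finset.mem_image, Finset.mem_range, Prod.mk.injEq]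
    exact ⟨fun ⟨n, h1, h2, h3⟩ => ⟨n, h1, h2.symm, h3.symm⟩,
      fun ⟨n, h1, h2, h3⟩ => ⟨n, h1, h2.symm, h3.symm⟩⟩
  have hu : ∀ n b, ((α, n), b) ∈ p.g → b = u n := by
    intro n b h
    by_cases h1 : ((α, n), true) ∈ p.g
    · rw [p.fn _ _ _ h h1]
      simp [u, h1]
    · cases b
      · simp [u, h1]
      · exact absurd h h1
  refine ⟨⟨p.g ∪ G, fun a b b' hb hb' => ?_⟩, Finset.subset_union_left, pre N u,
    fun n hn => ?_, fun n hn b hb => ?_⟩
  · rcases Finset.mem_union.1 hb with hb | hb <;> rcases Finset.mem_union.1 hb' with hb' | hb'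
    · exact p.fn a b b' hb hb'
    · obtain ⟨n, -, h2, h3⟩ := (hG a b').1 hb'
      rw [h2] at hb
      rw [h3, hu n b hb]
    · obtain ⟨n, -, h2, h3⟩ := (hG a b).1 hb
      rw [h2] at hb'
      rw [h3, hu n b' hb']
    · obtain ⟨n, -, h2, h3⟩ := (hG a b).1 hb
      obtain ⟨n', -, h2', h3'⟩ := (hG a b').1 hb'
      rw [h2] at h2'
      simp only [Prod.mk.injEq, true_and] at h2'
      rw [h3, h3', h2']
  · rw [length_pre] at hn
    rw [getD_pre hn]
    exact Finset.mem_union_right _ ((hG _ _).2 ⟨n, hn, rfl, rfl⟩)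
  · rw [length_pre] at hn
    rcases Finset.mem_union.1 hb with hb | hb
    · exact hN n hn b hb
    · obtain ⟨n', h1, h2, -⟩ := (hG _ b).1 hb
      simp only [Prod.mk.injEq, true_and] at h2
      omega

open Classical in
/-- prescribing further digits -/
theorem prescribe (α : K) {q : Fn K} {N : ℕ} (hq : ∀ n ≥ N, ∀ b, ((α, n), b) ∉ q.g)
    (t : List Bool) : ∃ r ≤ q, ∀ n, N ≤ n → n < t.length → ((α, n), t.getD n false) ∈ r.g := by
  let G : Finset ((K × ℕ) × Bool) := (Finset.Ico N t.length).image fun n =>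
    ((α, n), t.getD n false)
  have hG : ∀ a b, (a, b) ∈ G ↔ ∃ n, N ≤ n ∧ n < t.length ∧ a = (α, n) ∧ b = t.getD n false := by
    intro a b
    simp only [G, Finset.mem_image, Finset.mem_Ico, Prod.mk.injEq]
    exact ⟨fun ⟨n, h1, h2, h3⟩ => ⟨n, h1.1, h1.2, h2.symm, h3.symm⟩,
      fun ⟨n, h0, h1, h2, h3⟩ => ⟨n, ⟨h0, h1⟩, h2.symm, h3.symm⟩⟩
  refine ⟨⟨q.g ∪ G, fun a b b' hb hb' => ?_⟩, Finset.subset_union_left,
    fun n hn hn' => Finset.mem_union_right _ ((hG _ _).2 ⟨n, hn, hn', rfl, rfl⟩)⟩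
  rcases Finset.mem_union.1 hb with hb | hb <;> rcases Finset.mem_union.1 hb' with hb' | hb'
  · exact q.fn a b b' hb hb'
  · obtain ⟨n, h1, -, h2, -⟩ := (hG a b').1 hb'
    rw [h2] at hb
    exact absurd hb (hq n h1 b)
  · obtain ⟨n, h1, -, h2, -⟩ := (hG a b).1 hb
    rw [h2] at hb'
    exact absurd hb' (hq n h1 b')
  · obtain ⟨n, -, -, h2, h3⟩ := (hG a b).1 hb
    obtain ⟨n', -, -, h2', h3'⟩ := (hG a b').1 hb'
    rw [h2] at h2'
    simp only [Prod.mk.injEq, true_and] at h2'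
    rw [h3, h3', h2']

theorem initN_cr {α : K} {r : Fn K} {t : List Bool}
    (h : ∀ n < t.length, ((α, n), t.getD n false) ∈ r.g) : r ∈ InitN (cr α) t := by
  intro n hn
  have h1 := h n hn
  cases hb : t.getD n false with
  | true =>
    rw [hb] at h1
    exact mem_fiff_of_true (fun q hq => meets_of_mem (hq h1)) rfl
  | false =>
    rw [hb] at h1
    refine mem_fiff_of_false (fun q hq hm => ?_) (by simp)
    obtain ⟨q', hq', s, hs, hqs⟩ := hm q le_rfl
    exact absurd (q'.fn _ _ _ (hq' (hq h1)) (hqs hs)) (by simp)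

open Classical in
theorem covM_Fn (hK : ℵ₀ < #K) {W : Type} (hW : #W < #K) (p : Fn K) :
    p ∈ fall fun D : W → List Bool → List Bool → Set (Fn K) => fimp (fall fun w => IsFun (D w))
      (fex fun x : ℕ → Set (Fn K) => fall fun w => fex fun s => fex fun t =>
        fand (meets (D w s t)) (InitN x (s ++ t))) := by
  intro D
  refine mem_fimp.2 fun q _ hq => ⟨q, le_rfl, ?_⟩
  have hA : ∀ x : W × List Bool, ∃ A ⊆ {r : Fn K | ∃ t, r ∈ meets (D x.1 x.2 t)}, A.Countable ∧
      ∀ p ∈ {r : Fn K | ∃ t, r ∈ meets (D x.1 x.2 t)}, ∃ a ∈ A, ∃ s, s ≤ a ∧ s ≤ p := fun x =>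
    exists_antichain ccc_Fn _
  choose A hA1 hA2 hA3 using hA
  obtain ⟨α, hα⟩ : ∃ α : K, ∀ x, ∀ a ∈ A x, ∀ y ∈ a.g, y.1.1 ≠ α := by
    by_contra hcon
    push Not at hcon
    have h1 : (Set.univ : Set K) ⊆ ⋃ x : W × List Bool, ⋃ a ∈ A x,
        (fun y : (K × ℕ) × Bool => y.1.1) '' (a.g : Set ((K × ℕ) × Bool)) := by
      intro α _
      obtain ⟨x, a, ha, y, hy, h⟩ := hcon α
      exact mem_iUnion.2 ⟨x, mem_biUnion ha ⟨y, Finset.mem_coe.2 hy, h⟩⟩
    have h2 : #K ≤ #(W × List Bool) * ℵ₀ := by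
      rw [← mk_univ]
      refine (mk_le_mk_of_subset h1).trans ((mk_iUnion_le_sum_mk).trans ?_)
      refine (sum_le_sum _ (fun _ => ℵ₀) fun x => ?_).trans ?_
      · rw [le_aleph0_iff_set_countable]
        exact (hA2 x).biUnion fun a _ => (Finset.countable_toSet _).image _
      · rw [sum_const']
    have h3 : #(W × List Bool) * ℵ₀ < #K := by
      refine mul_lt_of_lt hK.le ?_ hK
      rw [mk_prod]
      simp only [Cardinal.lift_id]
      refine mul_lt_of_lt hK.le hW ?_
      exact (mk_le_aleph0 (α := List Bool)).trans_lt hK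
    exact absurd h2 (not_le.2 h3)
  refine mem_fex.2 fun q' hq' => ⟨q', le_rfl, cr α, fun w => mem_fex.2 fun r hr => ?_⟩
  obtain ⟨r1, h1, s, h2, h3⟩ := clean α r
  obtain ⟨r1', h4, t, h5⟩ := mem_fex.1 ((hq w).1 s) r1 (h1.trans (hr.trans hq'))
  obtain ⟨a, ha, r2', h6, h7⟩ := hA3 (w, s) r1' ⟨t, h5⟩
  obtain ⟨t', ht'⟩ := hA1 (w, s) ha
  -- the union of `a` and `r1`
  have hc := compat_iff.1 ⟨r2', h6, h7.trans h4⟩
  let r2 : Fn K := ⟨a.g ∪ r1.g, fun x b b' hb hb' => by
    rcases Finset.mem_union.1 hb with hb | hb <;> rcases Finset.mem_union.1 hb' with hb' | hb'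
    · exact a.fn x b b' hb hb'
    · exact hc x b b' hb hb'
    · exact (hc x b' b hb' hb).symm
    · exact r1.fn x b b' hb hb'⟩
  have h8 : r2 ≤ a := Finset.subset_union_left
  have h9 : r2 ≤ r1 := Finset.subset_union_right
  have h10 : ∀ n ≥ s.length, ∀ b, ((α, n), b) ∉ r2.g := by
    intro n hn b hb
    rcases Finset.mem_union.1 hb with hb | hb
    · exact hα _ a ha _ hb rfl
    · exact h3 n hn b hb
  obtain ⟨r3, h11, h12⟩ := prescribe α h10 (s ++ t')
  refine ⟨r3, h11.trans (h9.trans h1), s, mem_fex.2 fun r4 h13 => ⟨r4, le_rfl, t',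
    meets_down ht' (h13.trans (h11.trans h8)), initN_cr fun n hn => ?_⟩⟩
  rcases lt_or_ge n s.length with h | h
  · rw [List.getD_append _ _ _ _ h]
    exact h13 (h11 (h9 (h2 n h)))
  · exact h13 (h12 n h hn)

theorem enum_Fn {E : K → ℕ → ℕ → Option (Fn K)} (hE : Function.Surjective E) (p : Fn K) :
    p ∈ fex fun e : K → ℕ → Set (Fn K) => fall fun x : ℕ → Set (Fn K) => fex fun a =>
      fall fun n => fiff (meets (x n)) (meets (e a n)) := by
  refine mem_fex.2 fun q hq => ⟨q, le_rfl, fun a n => {s | ∃ k, E a n k = some s}, fun x => ?_⟩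
  choose A hA1 hA2 hA3 using fun n => exists_antichain ccc_Fn (meets (x n))
  have hg : ∀ n, ∃ g : ℕ → Option (Fn K), Set.range g = insert none (some '' A n) := by
    intro n
    obtain ⟨g, hg⟩ := (((hA2 n).image some).insert none).exists_eq_range
      (Set.insert_nonempty _ _)
    exact ⟨g, hg.symm⟩
  choose g hg using hg
  obtain ⟨α, hα⟩ := hE g
  have hmem : ∀ n s, (∃ k, E α n k = some s) ↔ s ∈ A n := by
    intro n s
    rw [hα]
    have : (∃ k, g n k = some s) ↔ some s ∈ Set.range (g n) := Iff.rfl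
    rw [this, hg n]
    simp
  refine mem_fex.2 fun r hr => ⟨r, le_rfl, α, fun n => ⟨mem_fimp.2 fun r1 _ h1 => ?_,
    mem_fimp.2 fun r1 _ h1 => ⟨r1, le_rfl, meets_of_dense fun r2 hr2 => ?_⟩⟩⟩
  · obtain ⟨a, ha, s, h2, h3⟩ := hA3 n r1 h1
    exact ⟨s, h3, meets_of_le ((hmem n a).2 ha) h2⟩
  · obtain ⟨r3, hr3, s, hs, h4⟩ := h1 r2 hr2
    exact ⟨r3, hr3, meets_down (hA1 n ((hmem n s).1 hs)) h4⟩

end

/-- the forcing notion adding `(2 ^ ℵ₀)⁺` Cohen reals forces the hypothesis -/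
theorem exists_cohen : ∃ (P : Type) (_ : Preorder P) (K W : Type) (_ : LinearOrder K),
    Nonempty P ∧ Ground K W ∧ ∀ p : P, p ∈ ForcedHyp P K W := by
  classical
  let K : Type := (Order.succ 𝔠).ord.ToType
  let W : Type := ℕ → Bool
  have hW : #W = 𝔠 := by simp [W]
  have hK : #K = Order.succ 𝔠 := mk_ord_toType _
  have hK0 : ℵ₀ ≤ #K := hK ▸ (aleph0_le_continuum.trans (Order.le_succ _))
  have hKc : 𝔠 < #K := hK ▸ Order.lt_succ _
  have hseg : ∀ a : K, #(Set.Iic a) ≤ #W := by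
    intro a
    have h1 : #(Set.Iio a) < Order.succ 𝔠 := by
      have := mk_Iio_lt a (by simp [K])
      rwa [mk_ord_toType] at this
    have h2 : #(Set.Iio a) ≤ 𝔠 := Order.lt_succ_iff.1 h1
    have h3 : Set.Iic a = Set.Iio a ∪ {a} := by
      ext b
      simp [le_iff_lt_or_eq]
    rw [h3, hW]
    refine (mk_union_le _ _).trans ((add_le_add h2 (mk_singleton a).le).trans ?_)
    exact (add_le_add le_rfl (one_le_aleph0.trans aleph0_le_continuum)).trans
      continuum_add_self.le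
  have hf : ∀ a : K, ∃ f : W → K, ∀ b ≤ a, ∃ w, f w = b := by
    intro a
    obtain ⟨f⟩ := hseg a
    have hne : Nonempty (Set.Iic a) := ⟨⟨a, Set.mem_Iic.2 le_rfl⟩⟩
    refine ⟨fun w => (Function.invFun f w).1, fun b hb => ?_⟩
    obtain ⟨w, hw⟩ := Function.invFun_surjective f.injective ⟨b, hb⟩
    exact ⟨w, congrArg Subtype.val hw⟩
  choose f hf using hf
  have hbound : ∀ g : ℕ → K, ∃ a, ∀ n, g n ≤ a := by
    intro g
    by_contra hcon
    push Not at hcon
    have h1 : (Set.univ : Set K) ⊆ ⋃ n, Set.Iic (g n) := by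
      intro a _
      obtain ⟨n, hn⟩ := hcon a
      exact mem_iUnion.2 ⟨n, hn.le⟩
    have h2 : #K ≤ 𝔠 := by
      rw [← mk_univ]
      refine (mk_le_mk_of_subset h1).trans ((mk_iUnion_le _).trans ?_)
      refine (mul_le_mul' (mk_nat.le.trans aleph0_le_continuum)
        (ciSup_le' fun n => (hseg (g n)).trans hW.le)).trans continuum_mul_self.le
    exact absurd h2 (not_le.2 hKc)
  have hpow : ∀ {X : Type}, #X ≤ #K → #(ℕ → X) ≤ #K := by
    intro X hX
    obtain ⟨i⟩ := hX
    choose a ha using fun g : ℕ → X => hbound fun n => i (g n)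
    choose h hh using fun (g : ℕ → X) (n : ℕ) => hf (a g) (i (g n)) (ha g n)
    have h1 : #(ℕ → X) ≤ #(K × (ℕ → W)) := by
      refine mk_le_of_injective (f := fun g => (a g, h g)) fun g g' hgg => funext fun n => ?_
      simp only [Prod.mk.injEq] at hgg
      refine i.injective ?_
      rw [← hh g n, ← hh g' n, hgg.1, hgg.2]
    refine h1.trans ?_
    rw [mk_prod, lift_id, lift_id]
    have h2 : #(ℕ → W) ≤ 𝔠 := by
      rw [← power_def, mk_nat, hW, continuum_power_aleph0]
    exact (mul_le_mul' le_rfl (h2.trans hKc.le)).trans (mul_eq_self hK0).le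
  have hFn : #(Option (Fn K)) ≤ #K := by
    have h1 : #(Fn K) ≤ #K := by
      have h2 : #(Fn K) ≤ #(Finset ((K × ℕ) × Bool)) := mk_le_of_injective (f := Fn.g)
        fun p q h => Pool.Agent.H458R4.Cohen.ext_g h
      have h3 : #((K × ℕ) × Bool) ≤ #K := by
        simp only [mk_prod, lift_id]
        refine (mul_le_mul' (mul_le_mul' le_rfl (mk_nat.le.trans hK0))
          ((mk_le_aleph0 (α := Bool)).trans hK0)).trans ?_
        rw [mul_eq_self hK0, mul_eq_self hK0]
      have : Infinite K := infinite_iff.2 hK0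
      have h4 : Infinite ((K × ℕ) × Bool) := inferInstance
      rw [mk_finset_of_infinite] at h2
      exact h2.trans h3
    rw [mk_option]
    exact (add_le_add h1 (one_le_aleph0.trans hK0)).trans (add_eq_self hK0).le
  obtain ⟨E, hE⟩ : ∃ E : K → ℕ → ℕ → Option (Fn K), Function.Surjective E := by
    obtain ⟨i⟩ := hpow (hpow hFn)
    exact ⟨Function.invFun i, Function.invFun_surjective i.injective⟩
  refine ⟨Fn K, inferInstance, K, W, inferInstance, inferInstance, ⟨wellFounded_lt, fun a =>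
    ⟨f a, hf a⟩, inferInstance⟩, fun p => ⟨enum_Fn hE p,
      covM_Fn (aleph0_le_continuum.trans_lt hKc) (hW ▸ hKc) p, ?_⟩⟩
  exact not_onto ccc_Fn (by rw [mk_nat, hW]; exact aleph0_lt_continuum)
    (by rw [hW]; exact aleph0_lt_continuum) p

end Pool.Agent.U775.CG
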