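import Pool.Agent.U775.CG.Link

set_option autoImplicit false

/-!
# The forcing notion forces that the plane is covered
-/

namespace Pool.Agent.U775.CG

open Pool.Agent.Helper126.Sus.Forc
open Pool.Agent.W876.Two.Gen (Ccc exists_antichain meets_fground mem_fand)

section

variable {P : Type} [Preorder P]

theorem mem_fiff_of_true {φ : Set P} {h : Prop} {p : P} (hφ : ∀ q ≤ p, q ∈ φ) (hh : h) :
    p ∈ fiff φ (fground h) :=
  ⟨mem_fimp.2 fun q _ _ => ⟨q, le_rfl, hh⟩, mem_fimp.2 fun q hq _ => ⟨q, le_rfl, hφ q hq⟩⟩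

theorem mem_fiff_of_false {φ : Set P} {h : Prop} {p : P} (hφ : ∀ q ≤ p, q ∉ φ) (hh : ¬ h) :
    p ∈ fiff φ (fground h) :=
  ⟨mem_fimp.2 fun q hq h' => absurd h' (hφ q hq), mem_fimp.2 fun q _ h' => absurd h' hh⟩

end

section

variable {Ω W K : Type} [LinearOrder Ω] [WellFoundedLT Ω] [LinearOrder K]
  {π : K → W → K} {E : K → ℕ → ℕ → Cond Ω W K}

open Classical in
theorem exists_name (hccc : Ccc (Po π E)) (hE : Function.Surjective E) (w0 : W)
    (hΩ : ∀ C : Set Ω, C.Countable → ∃ i, ∀ j ∈ C, j < i) (x : ℕ → Set (Po π E)) :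
    ∃ i0 α, ∀ i, i0 ≤ i → ∀ (p : Po π E) (n : ℕ),
      (FM E (Qs π E i) (res i p.1) α n true → p ∈ meets (x n)) ∧
      (FM E (Qs π E i) (res i p.1) α n false → p ∈ fnot (meets (x n))) := by
  choose A hA1 hA2 hA3 using fun n => exists_antichain hccc (meets (x n))
  obtain ⟨i0, hi0⟩ := hΩ (⋃ n, ⋃ a ∈ A n, (fun b : Atom Ω W K => b.st) '' (a.1 : Set (Atom Ω W K)))
    (Set.countable_iUnion fun n => (hA2 n).biUnion fun a _ =>
      (Finset.countable_toSet _).image _)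
  let junk : Cond Ω W K := {Atom.md i0 w0 0 0, Atom.md i0 w0 0 1}
  have hjunk : ∀ i, junk ∉ Qs π E i := by
    intro i h
    have := (valid_of_mem h i0).single w0 0 0 1 (by simp [junk]) (by simp [junk])
    exact absurd this (by norm_num)
  have hg : ∀ n, ∃ g : ℕ → Cond Ω W K, Set.range g = insert junk (Subtype.val '' A n) := by
    intro n
    obtain ⟨g, hg⟩ := (((hA2 n).image Subtype.val).insert junk).exists_eq_range
      (Set.insert_nonempty _ _)
    exact ⟨g, hg.symm⟩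
  choose g hg using hg
  obtain ⟨α, hα⟩ := hE g
  refine ⟨i0, α, fun i hi p n => ⟨fun h => ?_, fun h => ?_⟩⟩
  · refine meets_of_dense fun q hq => ?_
    obtain ⟨r0, hr0, h1, k, h2, h3⟩ := h (res i q.1) (res_mem q.2 i) (res_mono hq)
    have h4 : E α n k ∈ insert junk (Subtype.val '' A n) := by
      rw [hα, ← hg n]
      exact ⟨k, rfl⟩
    rcases h4 with h4 | ⟨a, ha, h4⟩
    · exact absurd (h4 ▸ h2) (hjunk i)
    · refine ⟨⟨q.1 ∪ r0, valid_union q.2 hr0 h1⟩, Finset.subset_union_left,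
        meets_down (hA1 n ha) ?_⟩
      rw [← h4] at h3
      exact h3.trans Finset.subset_union_right
  · intro q hq hqx
    obtain ⟨a, ha, r, hra, hrq⟩ := hA3 n q hqx
    have h1 : a.1 ∈ Qs π E i := (mem_Qs π E).2 ⟨fun b hb =>
      (hi0 _ (Set.mem_iUnion.2 ⟨n, Set.mem_iUnion₂.2 ⟨a, ha, b, hb, rfl⟩⟩)).trans_le hi,
      fun j _ => a.2 j⟩
    have h2 : a.1 ∈ Set.range (g n) := by
      rw [hg n]
      exact Or.inr ⟨a, ha, rfl⟩
    obtain ⟨k, hk⟩ := h2
    refine h (res i r.1) (res_mem r.2 i) (res_mono (hrq.trans hq)) ⟨k, ?_, ?_⟩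
    · rw [hα, hk]
      exact h1
    · rw [hα, hk]
      exact fun b hb => mem_res.2 ⟨hra hb, ((mem_Qs π E).1 h1).1 b hb⟩

/-- the name of the code of the function with the index `w` -/
def SN (π : K → W → K) (E : K → ℕ → ℕ → Cond Ω W K) (w : Ω × W) (s v : List Bool) :
    Set (Po π E) :=
  {q | ∃ α, Atom.prom w.1 w.2 α ∈ q.1 ∧ Atom.md w.1 w.2 v.length s.length ∈ q.1 ∧
    Dec E (Qs π E w.1) (res w.1 q.1) α s.length (fun n => s.getD n false) ∧
    Dec E (Qs π E w.1) (res w.1 q.1) (π α w.2) v.length (fun n => v.getD n false)}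

theorem SN_down {w : Ω × W} {s v : List Bool} {p q : Po π E} (h : p ∈ SN π E w s v)
    (hq : q ≤ p) : q ∈ SN π E w s v := by
  obtain ⟨α, h1, h2, h3, h4⟩ := h
  exact ⟨α, hq h1, hq h2, h3.mono (res_mono hq), h4.mono (res_mono hq)⟩

theorem list_eq {v v' : List Bool} (hl : v.length = v'.length)
    (h : ∀ n < v.length, v.getD n false = v'.getD n false) : v = v' := by
  refine List.ext_getElem hl fun n h1 h2 => ?_
  have := h n h1
  rwa [List.getD_eq_getElem _ _ h1, List.getD_eq_getElem _ _ h2] at this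

theorem isCodeN (w : Ω × W) (p : Po π E) : p ∈ IsCodeN (SN π E w) := by
  intro s v s' v' hl
  refine mem_fimp.2 fun q _ hq => ?_
  obtain ⟨r, hr, a, ha, hra⟩ := hq.1 q le_rfl
  obtain ⟨r', hr', b, hb, hrb⟩ := hq.2 r hr
  refine ⟨r', hr'.trans hr, ?_⟩
  obtain ⟨α, h1, h2, h3, h4⟩ := SN_down ha (hr'.trans hra)
  obtain ⟨β, g1, g2, g3, g4⟩ := SN_down hb hrb
  have hlen : s.length = s'.length := (r'.2 w.1).single _ _ _ _ h2 (hl ▸ g2)
  refine ⟨hlen, fun hs => ?_⟩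
  subst hs
  rw [← hl] at g4
  exact list_eq hl ((r'.2 w.1).compat w.2 α β _ _ h1 g1 h2 _ (res_mem r'.2 _)
    (Finset.Subset.refl _) _ _ _ h3 g3 h4 g4)

theorem getD_pre {L n : ℕ} {u : ℕ → Bool} (h : n < L) : (pre L u).getD n false = u n := by
  simp [pre, h]

open Classical in
theorem mapsN_aux {i : Ω} {ξ : W} {γ α β : K} {x y : ℕ → Set (Po π E)} {p : Po π E}
    (hx : ∀ (q : Po π E) (n : ℕ), (FM E (Qs π E i) (res i q.1) α n true → q ∈ meets (x n)) ∧
      (FM E (Qs π E i) (res i q.1) α n false → q ∈ fnot (meets (x n))))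
    (hy : ∀ (q : Po π E) (n : ℕ), (FM E (Qs π E i) (res i q.1) β n true → q ∈ meets (y n)) ∧
      (FM E (Qs π E i) (res i q.1) β n false → q ∈ fnot (meets (y n))))
    (hp : Atom.prom i ξ γ ∈ p.1) (h1 : EqN E (Qs π E i) (res i p.1) γ α)
    (h2 : EqN E (Qs π E i) (res i p.1) (π γ ξ) β) : p ∈ MapsN (SN π E (i, ξ)) x y := by
  intro n
  refine mem_fex.2 fun q hq => ?_
  obtain ⟨q1, hq1, l, hl⟩ := exists_md q i ξ n
  obtain ⟨r1, hr1, s1, u, hu⟩ := exists_Dec (E := E) (res_mem q1.2 i) γ l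
  obtain ⟨r2, hr2, s2, v, hv⟩ := exists_Dec (E := E) hr1 (π γ ξ) n
  obtain ⟨r3, hr3, s3, u', hu'⟩ := exists_Dec (E := E) hr2 α l
  obtain ⟨r4, hr4, s4, v', hv'⟩ := exists_Dec (E := E) hr3 β n
  let r : Po π E := ⟨q1.1 ∪ r4, valid_union q1.2 hr4 (s1.trans (s2.trans (s3.trans s4)))⟩
  have hrq1 : r ≤ q1 := Finset.subset_union_left
  have hr4i := ((mem_Qs π E).1 hr4).1
  have hres : r4 ⊆ res i r.1 := fun a ha => mem_res.2 ⟨Finset.mem_union_right _ ha, hr4i a ha⟩
  have hpr : res i p.1 ⊆ res i r.1 := res_mono (hrq1.trans (hq1.trans hq))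
  have hri := res_mem r.2 i
  have eu : ∀ n < l, u n = u' n := fun m hm => h1 (res i r.1) hri hpr m _ _
    ((hu m hm).mono (s2.trans (s3.trans (s4.trans hres)))) ((hu' m hm).mono (s4.trans hres))
  have ev : ∀ m < n, v m = v' m := fun m hm => h2 (res i r.1) hri hpr m _ _
    ((hv m hm).mono (s3.trans (s4.trans hres))) ((hv' m hm).mono hres)
  have init : ∀ {z : ℕ → Set (Po π E)} {δ : K} {L : ℕ} {u u' : ℕ → Bool},
      (∀ (q : Po π E) (n : ℕ), (FM E (Qs π E i) (res i q.1) δ n true → q ∈ meets (z n)) ∧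
        (FM E (Qs π E i) (res i q.1) δ n false → q ∈ fnot (meets (z n)))) →
      Dec E (Qs π E i) (res i r.1) δ L u' → (∀ n < L, u n = u' n) →
      ∀ r' ≤ r, r' ∈ InitN z (pre L u) := by
    intro z δ L u u' hz hd he r' hr' m hm
    rw [length_pre] at hm
    have hd' := (hd m hm).mono (res_mono (j := i) hr')
    rw [← he m hm] at hd'
    rw [getD_pre hm]
    cases hum : u m with
    | true =>
      rw [hum] at hd'
      exact mem_fiff_of_true (fun q hq => (hz q m).1 (hd'.mono (res_mono hq))) rfl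
    | false =>
      rw [hum] at hd'
      exact mem_fiff_of_false (fun q hq => (hz r' m).2 hd' q hq) (by simp)
  refine ⟨r, hrq1.trans hq1, pre l u, mem_fex.2 fun r' hr' => ⟨r', le_rfl, pre n v, ?_⟩⟩
  refine ⟨length_pre _ _, meets_of_mem ⟨γ, (hr'.trans (hrq1.trans (hq1.trans hq))) hp, ?_, ?_, ?_⟩,
    init hx (hu'.mono (s4.trans hres)) eu r' hr', init hy (hv'.mono hres) ev r' hr'⟩
  · rw [length_pre, length_pre]
    exact (hr'.trans hrq1) hl
  · rw [length_pre]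
    exact fun m hm => by
      beta_reduce
      rw [getD_pre hm]
      exact (hu m hm).mono ((s2.trans (s3.trans (s4.trans hres))).trans (res_mono hr'))
  · rw [length_pre]
    exact fun m hm => by
      beta_reduce
      rw [getD_pre hm]
      exact (hv m hm).mono ((s3.trans (s4.trans hres)).trans (res_mono hr'))

theorem mem_for_left {P : Type} [Preorder P] {φ ψ : Set P} {p : P} (h : ∀ q ≤ p, q ∈ φ) :
    p ∈ fdisj φ ψ := fun q hq h' => h'.1 q le_rfl (h q hq)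

theorem mem_for_right {P : Type} [Preorder P] {φ ψ : Set P} {p : P} (h : ∀ q ≤ p, q ∈ ψ) :
    p ∈ fdisj φ ψ := fun q hq h' => h'.2 q le_rfl (h q hq)

open Classical in
theorem coverN [WellFoundedLT K] (hπ : ∀ α, ∀ β ≤ α, ∃ ξ, π α ξ = β) (hccc : Ccc (Po π E))
    (hE : Function.Surjective E) (w0 : W)
    (hΩ : ∀ C : Set Ω, C.Countable → ∃ i, ∀ j ∈ C, j < i) {V : Type} (e : V → Ω × W)
    (he : Function.Surjective e) (p : Po π E) : p ∈ CoverN (Po π E) V := by
  refine mem_fex.2 fun p hp => ⟨p, le_rfl, fun v => SN π E (e v), fun v => isCodeN _ _,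
    fun x y => mem_fex.2 fun q hq => ?_⟩
  obtain ⟨i1, α, hα⟩ := exists_name hccc hE w0 hΩ x
  obtain ⟨i2, β, hβ⟩ := exists_name hccc hE w0 hΩ y
  obtain ⟨i, hi⟩ := hΩ ({i1, i2} ∪ (fun a : Atom Ω W K => a.st) '' (q.1 : Set (Atom Ω W K)))
    ((Set.toFinite _).countable.union ((Finset.countable_toSet _).image _))
  have hi1 : i1 ≤ i := (hi i1 (by simp)).le
  have hi2 : i2 ≤ i := (hi i2 (by simp)).le
  obtain ⟨r, hr, ξ, γ, h1, h2⟩ := exists_prom hπ q
    (fun a ha => hi _ (Or.inr ⟨a, ha, rfl⟩)) α β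
  obtain ⟨v, hv⟩ := he (i, ξ)
  refine ⟨r, hr, v, ?_⟩
  beta_reduce
  rw [hv]
  rcases h2 with ⟨h2, h3⟩ | ⟨h2, h3⟩
  · exact mem_for_left fun r' hr' => mapsN_aux (hα i hi1) (hβ i hi2) (hr' h1)
      (h2.mono (res_mono hr')) (h3.mono (res_mono hr'))
  · exact mem_for_right fun r' hr' => mapsN_aux (hβ i hi2) (hα i hi1) (hr' h1)
      (h2.mono (res_mono hr')) (h3.mono (res_mono hr'))

end

end Pool.Agent.U775.CG
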