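import Mathlib
import Pool.Agent.Helper126.Sus.Forc
import Pool.Agent.W876.Two.Gen

set_option autoImplicit false

/-!
# The principle about codes of continuous functions, and its translation into the forcing language
-/

namespace Pool.Agent.U775.CG

open Pool.Agent.Helper126.Sus.Forc
open Pool.Agent.W876.Two.Gen (IsFun)

/-- The finite sequence `s` is an initial segment of (the characteristic function of) `x`. -/
def Init (x : ℕ → Prop) (s : List Bool) : Prop :=
  ∀ i < s.length, (x i ↔ s.getD i false = true)

/-- The set `S` of pairs of finite sequences is a code (of a partial continuous function of the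
Cantor space): for every `n` all `s` with `(s, v)` in `S` for some `v` of length `n` have the same
length, and `v` is determined by `s` and `n`. -/
def IsCode (S : List Bool → List Bool → Prop) : Prop :=
  ∀ s v s' v', v.length = v'.length → S s v → S s' v' →
    s.length = s'.length ∧ (s = s' → v = v')

/-- The code `S` is a Lipschitz code. -/
def IsLip (S : List Bool → List Bool → Prop) : Prop :=
  ∃ c : ℕ, ∀ s v, S s v → s.length = v.length + c

/-- The function coded by `S` maps `x` to `y`. -/
def Maps (S : List Bool → List Bool → Prop) (x y : ℕ → Prop) : Prop :=
  ∀ n, ∃ s v, v.length = n ∧ S s v ∧ Init x s ∧ Init y v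

/-- For every pair `x`, `y` of subsets of `ℕ` one of `|W|` codes maps `x` to `y` or `y` to `x`, but
this does not hold for any family of `|W|` Lipschitz codes. -/
structure Principle (W : Type) : Prop where
  cover : ∃ S : W → List Bool → List Bool → Prop, (∀ w, IsCode (S w)) ∧
    ∀ x y : ℕ → Prop, ∃ w, Maps (S w) x y ∨ Maps (S w) y x
  noLip : ∀ T : W → List Bool → List Bool → Prop, (∀ w, IsCode (T w) ∧ IsLip (T w)) →
    ∃ x y : ℕ → Prop, ∀ w, ¬ Maps (T w) x y ∧ ¬ Maps (T w) y x

/-- The hypothesis on `K` and `W`: there are at most `|K|` subsets of `ℕ`; the Cantor space is not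
covered by `|W|` nowhere dense sets (every function `D w` from finite sequences to finite sequences
codes the nowhere dense set of the `x` such that for no `s` the concatenation of `s` and `D w s` is
an initial segment of `x`); and `W` is uncountable. -/
structure Hyp (K W : Type) : Prop where
  enum : ∃ e : K → ℕ → Prop, ∀ x : ℕ → Prop, ∃ a, ∀ n, x n ↔ e a n
  covM : ∀ D : W → List Bool → List Bool, ∃ x : ℕ → Prop, ∀ w, ∃ s, Init x (s ++ D w s)
  uncountable : ¬ ∃ F : ℕ → W, ∀ w, ∃ n, F n = w

/-- The conditions on the objects of the ground model: `K` is well-ordered, and its proper initial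
segments are images of `W`. -/
structure Ground (K W : Type) [LinearOrder K] : Prop where
  wf : WellFounded fun a b : K => a < b
  seg : ∀ a : K, ∃ f : W → K, ∀ b ≤ a, ∃ w, f w = b
  infinite : Infinite W

section

variable {P : Type} [Preorder P]

/-- `φ` if and only if `ψ` -/
def fiff (φ ψ : Set P) : Set P := fand (fimp φ ψ) (fimp ψ φ)

/-- `φ` or `ψ` -/
def fdisj (φ ψ : Set P) : Set P := fnot (fand (fnot φ) (fnot ψ))

/-- The sentence which expresses `Init x s`. -/
def InitN (x : ℕ → Set P) (s : List Bool) : Set P :=
  fall fun i => fall fun _ : i < s.length => fiff (meets (x i)) (fground (s.getD i false = true))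

/-- The sentence which expresses `IsCode S`. -/
def IsCodeN (S : List Bool → List Bool → Set P) : Set P :=
  fall fun s => fall fun v => fall fun s' => fall fun v' => fall fun _ : v.length = v'.length =>
    fimp (fand (meets (S s v)) (meets (S s' v')))
      (fground (s.length = s'.length ∧ (s = s' → v = v')))

/-- The sentence which expresses `IsLip S`. -/
def IsLipN (S : List Bool → List Bool → Set P) : Set P :=
  fex fun c : ℕ => fall fun s => fall fun v =>
    fimp (meets (S s v)) (fground (s.length = v.length + c))

/-- The sentence which expresses `Maps S x y`. -/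
def MapsN (S : List Bool → List Bool → Set P) (x y : ℕ → Set P) : Set P :=
  fall fun n => fex fun s => fex fun v => fand (fground (v.length = n))
    (fand (meets (S s v)) (fand (InitN x s) (InitN y v)))

/-- The sentence which expresses the first part of the principle. -/
def CoverN (P : Type) [Preorder P] (W : Type) : Set P :=
  fex fun S : W → List Bool → List Bool → Set P => fand (fall fun w => IsCodeN (S w))
    (fall fun x : ℕ → Set P => fall fun y : ℕ → Set P =>
      fex fun w => fdisj (MapsN (S w) x y) (MapsN (S w) y x))

/-- The sentence which expresses the second part of the principle. -/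
def NoLipN (P : Type) [Preorder P] (W : Type) : Set P :=
  fall fun T : W → List Bool → List Bool → Set P =>
    fimp (fall fun w => fand (IsCodeN (T w)) (IsLipN (T w)))
      (fex fun x : ℕ → Set P => fex fun y : ℕ → Set P =>
        fall fun w => fand (fnot (MapsN (T w) x y)) (fnot (MapsN (T w) y x)))

/-- The principle in the forcing language. -/
def ForcedPrinciple (P : Type) [Preorder P] (W : Type) : Set P := fand (CoverN P W) (NoLipN P W)

/-- The sentence which expresses `Hyp K W`. -/
def ForcedHyp (P : Type) [Preorder P] (K W : Type) : Set P :=
  fand (fex fun e : K → ℕ → Set P => fall fun x : ℕ → Set P => fex fun a => fall fun n =>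
      fiff (meets (x n)) (meets (e a n)))
    (fand (fall fun D : W → List Bool → List Bool → Set P => fimp (fall fun w => IsFun (D w))
        (fex fun x : ℕ → Set P => fall fun w => fex fun s => fex fun t =>
          fand (meets (D w s t)) (InitN x (s ++ t))))
      (fnot (fex fun F : ℕ → W → Set P =>
        fand (IsFun F) (fall fun w => fex fun n => meets (F n w)))))

end

end Pool.Agent.U775.CG
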