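import Pool.Agent.U775.CG.Iter

set_option autoImplicit false

/-!
# Density lemmas for the iteration
-/

namespace Pool.Agent.U775.CG

section

variable {Ω W K : Type} {E : K → ℕ → ℕ → Cond Ω W K} {Q : Set (Cond Ω W K)}

/-- `p` forces that the reals with the names `E γ` and `E α` are equal. -/
def EqN (E : K → ℕ → ℕ → Cond Ω W K) (Q : Set (Cond Ω W K)) (p : Cond Ω W K) (γ α : K) : Prop :=
  ∀ r ∈ Q, p ⊆ r → ∀ n b b', FM E Q r γ n b → FM E Q r α n b' → b = b'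

theorem EqN.mono {p p' : Cond Ω W K} {γ α : K} (h : EqN E Q p γ α) (hp : p ⊆ p') :
    EqN E Q p' γ α := fun r hr hpr => h r hr (hp.trans hpr)

theorem exists_least [LinearOrder K] [WellFoundedLT K] {p : Cond Ω W K} (hp : p ∈ Q) (α : K) :
    ∃ q ∈ Q, p ⊆ q ∧ ∃ γ, EqN E Q q γ α ∧ Least E Q q γ := by
  let S : Set K := {γ | ∃ q ∈ Q, p ⊆ q ∧ EqN E Q q γ α}
  have hS : S.Nonempty := ⟨α, p, hp, Finset.Subset.refl _, fun r hr _ n b b' h h' => h.unique hr h'⟩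
  obtain ⟨q, hq, hpq, hE⟩ := (wellFounded_lt (α := K)).min_mem S hS
  refine ⟨q, hq, hpq, _, hE, fun δ hδ q' hq' hqq' => ?_⟩
  by_contra hcon
  push Not at hcon
  refine (wellFounded_lt (α := K)).not_lt_min S (x := δ) ?_ hδ
  refine ⟨q', hq', hpq.trans hqq', fun r hr hq'r n b b' h1 h2 => ?_⟩
  obtain ⟨r', hr', h3, c, h4⟩ := exists_FM (E := E) hr ((wellFounded_lt (α := K)).min S hS) n
  have h5 := hE r' hr' (hqq'.trans (hq'r.trans h3)) n c b' h4 (h2.mono h3)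
  have h6 := hcon r' hr' (hq'r.trans h3) n b (h1.mono h3)
  subst h5
  by_contra hb
  have : c = !b := by cases b <;> cases c <;> simp_all
  exact h6 (this ▸ h4)

theorem exists_sep [LinearOrder K] {p : Cond Ω W K} (hp : p ∈ Q) (S : Finset (K × K))
    (hS : ∀ x ∈ S, x.1 < x.2 ∧ Least E Q p x.2) :
    ∃ q ∈ Q, p ⊆ q ∧ ∃ l, ∀ x ∈ S, ∃ n < l, ∃ b, FM E Q q x.1 n b ∧ FM E Q q x.2 n (!b) := by
  classical
  induction S using Finset.induction_on with
  | empty => exact ⟨p, hp, Finset.Subset.refl _, 0, by simp⟩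
  | insert x S hx ih =>
    obtain ⟨q, hq, hpq, l, h⟩ := ih fun y hy => hS y (Finset.mem_insert_of_mem hy)
    obtain ⟨h1, h2⟩ := hS x (Finset.mem_insert_self _ _)
    obtain ⟨r, hr, hqr, n, b, h3, h4⟩ := h2 x.1 h1 q hq hpq
    refine ⟨r, hr, hpq.trans hqr, max l (n + 1), fun y hy => ?_⟩
    rcases Finset.mem_insert.1 hy with rfl | hy
    · exact ⟨n, by omega, b, h3, h4⟩
    · obtain ⟨n', hn', b', h5, h6⟩ := h y hy
      exact ⟨n', by omega, b', h5.mono hqr, h6.mono hqr⟩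

end

section

variable {Ω W K : Type} [LinearOrder Ω] [WellFoundedLT Ω] [LinearOrder K]
  {π : K → W → K} {E : K → ℕ → ℕ → Cond Ω W K}

theorem valid_add {i : Ω} {p r : Cond Ω W K} (hp : ∀ j, VV π E j (Qs π E j) p)
    (hr : res i r ∈ Qs π E i) (hi : VV π E i (Qs π E i) r) (hsub : p ⊆ r)
    (habove : ∀ a ∈ r, i < a.st → a ∈ p) (j : Ω) : VV π E j (Qs π E j) r := by
  rcases lt_trichotomy j i with h | h | h
  · refine (valid_of_mem hr j).mono (fun a ha har => mem_res.2 ⟨har, ha ▸ h⟩) ?_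
    exact res_mono (res_subset _ _)
  · subst h
    exact hi
  · exact (hp j).mono (fun a ha har => habove a har (ha ▸ h)) (res_mono hsub)

theorem valid_insert {i : Ω} {p q : Cond Ω W K} {a : Atom Ω W K}
    (hp : ∀ j, VV π E j (Qs π E j) p) (hq : q ∈ Qs π E i) (h : res i p ⊆ q) (ha : a.st = i)
    {r : Cond Ω W K} (hr : ∀ b, b ∈ r ↔ b = a ∨ b ∈ p ∨ b ∈ q)
    (hi : VV π E i (Qs π E i) r) (j : Ω) : VV π E j (Qs π E j) r := by
  have hqi := ((mem_Qs π E).1 hq).1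
  refine valid_add hp ?_ hi (fun b hb => (hr b).2 (Or.inr (Or.inl hb))) (fun b hb hib => ?_) j
  · have : res i r = q := by
      ext b
      rw [mem_res, hr]
      constructor
      · rintro ⟨rfl | h1 | h1, h2⟩
        · exact absurd ha h2.ne
        · exact h (mem_res.2 ⟨h1, h2⟩)
        · exact h1
      · exact fun h1 => ⟨Or.inr (Or.inr h1), hqi b h1⟩
    rwa [this]
  · rcases (hr b).1 hb with rfl | h1 | h1
    · exact absurd ha hib.ne'
    · exact h1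
    · exact absurd (hqi b h1) hib.not_gt

open Classical in
theorem exists_md (p : Po π E) (i : Ω) (ξ : W) (m : ℕ) :
    ∃ q ≤ p, ∃ l, Atom.md i ξ m l ∈ q.1 := by
  by_cases hex : ∃ l, Atom.md i ξ m l ∈ p.1
  · exact ⟨p, le_rfl, hex⟩
  push Not at hex
  let A : Finset K := p.1.biUnion fun a => match a with
    | .prom _ _ α => {α}
    | .md _ _ _ _ => ∅
  have hA : ∀ i' ξ' α, Atom.prom i' ξ' α ∈ p.1 → α ∈ A := fun i' ξ' α h =>
    Finset.mem_biUnion.2 ⟨_, h, by simp⟩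
  let S : Finset (K × K) := (A ×ˢ A).filter fun x =>
    x.1 < x.2 ∧ Atom.prom i ξ x.1 ∈ p.1 ∧ Atom.prom i ξ x.2 ∈ p.1
  obtain ⟨q, hq, hpq, l, hl⟩ := exists_sep (E := E) (res_mem p.2 i) S fun x hx => by
    simp only [S, Finset.mem_filter] at hx
    exact ⟨hx.2.1, (p.2 i).least ξ x.2 hx.2.2.2⟩
  have hqi := ((mem_Qs π E).1 hq).1
  have hsep : ∀ α α', Atom.prom i ξ α ∈ p.1 → Atom.prom i ξ α' ∈ p.1 → α ≠ α' →
      ∃ n < l, ∃ b, FM E (Qs π E i) q α n b ∧ FM E (Qs π E i) q α' n (!b) := by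
    intro α α' h1 h2 hne
    rcases lt_or_gt_of_ne hne with h | h
    · exact hl (α, α') (by simp only [S, Finset.mem_filter, Finset.mem_product];
                           exact ⟨⟨hA _ _ _ h1, hA _ _ _ h2⟩, h, h1, h2⟩)
    · obtain ⟨n, hn, b, h3, h4⟩ := hl (α', α) (by
        simp only [S, Finset.mem_filter, Finset.mem_product]
        exact ⟨⟨hA _ _ _ h2, hA _ _ _ h1⟩, h, h2, h1⟩)
      exact ⟨n, hn, !b, h4, by simpa using h3⟩
  let r : Cond Ω W K := insert (Atom.md i ξ m l) (p.1 ∪ q)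
  have hr : ∀ b, b ∈ r ↔ b = Atom.md i ξ m l ∨ b ∈ p.1 ∨ b ∈ q := fun b => by simp [r]
  have hpr : p.1 ⊆ r := fun a ha => (hr a).2 (Or.inr (Or.inl ha))
  have hqr : q ⊆ res i r := fun a ha => mem_res.2 ⟨(hr a).2 (Or.inr (Or.inr ha)), hqi a ha⟩
  have hst : ∀ b ∈ r, b.st = i → b = Atom.md i ξ m l ∨ b ∈ p.1 := by
    intro b hb hbi
    rcases (hr b).1 hb with h | h | h
    · exact Or.inl h
    · exact Or.inr h
    · exact absurd (hqi b h) (by rw [hbi]; exact lt_irrefl _)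
  have hprom : ∀ ξ' α, Atom.prom i ξ' α ∈ r → Atom.prom i ξ' α ∈ p.1 := by
    intro ξ' α h
    rcases hst _ h rfl with h | h
    · exact absurd h (by simp)
    · exact h
  refine ⟨⟨r, valid_insert p.2 hq hpq rfl hr ⟨?_, ?_, ?_⟩⟩, hpr, l, (hr _).2 (Or.inl rfl)⟩
  · intro ξ' m' l1 l2 h1 h2
    rcases hst _ h1 rfl with g1 | g1 <;> rcases hst _ h2 rfl with g2 | g2
    · simp only [Atom.md.injEq] at g1 g2
      rw [g1.2.2.2, g2.2.2.2]
    · simp only [Atom.md.injEq] at g1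
      rw [g1.2.1, g1.2.2.1] at g2
      exact absurd g2 (hex _)
    · simp only [Atom.md.injEq] at g2
      rw [g2.2.1, g2.2.2.1] at g1
      exact absurd g1 (hex _)
    · exact (p.2 i).single _ _ _ _ g1 g2
  · exact fun ξ' α h => ((p.2 i).least ξ' α (hprom _ _ h)).mono (res_mono hpr)
  · intro ξ' α α' m' l' h1 h2 h3
    have h1' := hprom _ _ h1
    have h2' := hprom _ _ h2
    rcases hst _ h3 rfl with h3 | h3
    · simp only [Atom.md.injEq] at h3
      obtain ⟨-, rfl, rfl, rfl⟩ := h3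
      intro q' hq' hrq' u v v' d1 d2 d3 d4
      by_cases hne : α = α'
      · subst hne
        exact d3.unique hq' d4
      · obtain ⟨n, hn, b, h5, h6⟩ := hsep α α' h1' h2' hne
        have e1 := (d1 n hn).unique hq' (h5.mono (hqr.trans hrq'))
        have e2 := (d2 n hn).unique hq' (h6.mono (hqr.trans hrq'))
        rw [e1] at e2
        cases b <;> simp at e2
    · exact ((p.2 i).compat ξ' α α' m' l' h1' h2' h3).mono (res_mono hpr)

open Classical in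
theorem exists_prom [WellFoundedLT K] (hπ : ∀ α, ∀ β ≤ α, ∃ ξ, π α ξ = β) (p : Po π E) {i : Ω}
    (hi : ∀ a ∈ p.1, a.st < i) (α β : K) :
    ∃ q ≤ p, ∃ ξ γ, Atom.prom i ξ γ ∈ q.1 ∧
      ((EqN E (Qs π E i) (res i q.1) γ α ∧ EqN E (Qs π E i) (res i q.1) (π γ ξ) β) ∨
      (EqN E (Qs π E i) (res i q.1) γ β ∧ EqN E (Qs π E i) (res i q.1) (π γ ξ) α)) := by
  have hp : p.1 ∈ Qs π E i := (mem_Qs π E).2 ⟨hi, fun j _ => p.2 j⟩
  obtain ⟨q1, hq1, hpq1, α', hα1, hα2⟩ := exists_least (E := E) hp α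
  obtain ⟨q, hq, hq1q, β', hβ1, hβ2⟩ := exists_least (E := E) hq1 β
  have hα1' := hα1.mono hq1q
  have hα2' := hα2.mono hq1q
  have hqi := ((mem_Qs π E).1 hq).1
  -- the common construction
  have key : ∀ γ ξ, Least E (Qs π E i) q γ → ∃ r : Po π E, r ≤ p ∧ q ⊆ res i r.1 ∧
      Atom.prom i ξ γ ∈ r.1 := by
    intro γ ξ hγ
    let r : Cond Ω W K := insert (Atom.prom i ξ γ) (p.1 ∪ q)
    have hr : ∀ b, b ∈ r ↔ b = Atom.prom i ξ γ ∨ b ∈ p.1 ∨ b ∈ q := fun b => by simp [r]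
    have hpr : p.1 ⊆ r := fun a ha => (hr a).2 (Or.inr (Or.inl ha))
    have hqr : q ⊆ res i r := fun a ha => mem_res.2 ⟨(hr a).2 (Or.inr (Or.inr ha)), hqi a ha⟩
    have hst : ∀ b ∈ r, b.st = i → b = Atom.prom i ξ γ := by
      intro b hb hbi
      rcases (hr b).1 hb with h | h | h
      · exact h
      · exact absurd (hi b h) (by rw [hbi]; exact lt_irrefl _)
      · exact absurd (hqi b h) (by rw [hbi]; exact lt_irrefl _)
    refine ⟨⟨r, valid_insert p.2 hq ((res_subset i p.1).trans (hpq1.trans hq1q)) rfl hr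
      ⟨?_, ?_, ?_⟩⟩, hpr, hqr, (hr _).2 (Or.inl rfl)⟩
    · intro ξ' m' l1 l2 h1 h2
      exact absurd (hst _ h1 rfl) (by simp)
    · intro ξ' δ h
      have := hst _ h rfl
      simp only [Atom.prom.injEq] at this
      rw [this.2.2]
      exact hγ.mono hqr
    · intro ξ' δ δ' m' l' h1 h2 h3
      exact absurd (hst _ h3 rfl) (by simp)
  rcases le_total β' α' with h | h
  · obtain ⟨ξ, hξ⟩ := hπ α' β' h
    obtain ⟨r, hr1, hr2, hr3⟩ := key α' ξ hα2'
    exact ⟨r, hr1, ξ, α', hr3, Or.inl ⟨hα1'.mono hr2, hξ ▸ hβ1.mono hr2⟩⟩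
  · obtain ⟨ξ, hξ⟩ := hπ β' α' h
    obtain ⟨r, hr1, hr2, hr3⟩ := key β' ξ hβ2
    exact ⟨r, hr1, ξ, β', hr3, Or.inr ⟨hβ1.mono hr2, hξ ▸ hα1'.mono hr2⟩⟩

end

end Pool.Agent.U775.CG
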