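import Pool.Agent.U775.CG.Neg
import Pool.Agent.R594.Star.CH

set_option autoImplicit false

/-!
# The forcing notion exists
-/

namespace Pool.Agent.U775.CG

open Cardinal
open Pool.Agent.Helper126.Sus.Forc
open Pool.Agent.R594.Star (exists_gt_K1 mk_K1)

theorem mk_real : #(ℕ → Prop) = 𝔠 := by simp

theorem mk_W_lt {K W : Type} (hh : Hyp K W) : #W < 𝔠 := by
  by_contra hcon
  push Not at hcon
  rw [← mk_real] at hcon
  obtain ⟨f⟩ := hcon
  have hne : Nonempty (ℕ → Prop) := ⟨fun _ => True⟩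
  obtain ⟨x, hx⟩ := hh.covM fun w => avoid (Function.invFun f w)
  obtain ⟨s, hs⟩ := hx (f x)
  exact ne_of_avoid hs (Function.leftInverse_invFun f.injective x).symm

theorem mk_le_succ {K W : Type} [LinearOrder K] (hg : Ground K W) : #K ≤ Order.succ #W := by
  have : WellFoundedLT K := ⟨hg.wf⟩
  by_contra hcon
  push Not at hcon
  have h1 : (Order.succ #W).ord < Ordinal.type (fun a b : K => a < b) := by
    by_contra h
    push Not at h
    have := Ordinal.card_le_card h
    rw [Ordinal.card_type, card_ord] at this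
    exact absurd this (not_le.2 hcon)
  have h2 := Ordinal.card_typein (r := fun a b : K => a < b)
    (Ordinal.enum (fun a b : K => a < b) ⟨_, h1⟩)
  rw [Ordinal.typein_enum, card_ord] at h2
  obtain ⟨f, hf⟩ := hg.seg (Ordinal.enum (fun a b : K => a < b) ⟨_, h1⟩)
  have h3 : #{y // y < Ordinal.enum (fun a b : K => a < b) ⟨_, h1⟩} ≤ #W := by
    choose g hg using fun y : {y // y < Ordinal.enum (fun a b : K => a < b) ⟨_, h1⟩} =>
      hf y.1 y.2.le
    exact mk_le_of_injective (f := g) fun y y' h => Subtype.ext (by rw [← hg y, ← hg y', h])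
  exact absurd (h2.le.trans h3) (not_le.2 (Order.lt_succ _))

theorem exists_forcing {K W : Type} [LinearOrder K] (hg : Ground K W) (hh : Hyp K W) :
    ∃ (P : Type) (_ : Preorder P), Nonempty P ∧ ∀ p : P, p ∈ ForcedPrinciple P W := by
  classical
  have hwf : WellFoundedLT K := ⟨hg.wf⟩
  have hinf := hg.infinite
  obtain ⟨w0⟩ : Nonempty W := inferInstance
  have hWc : #W < 𝔠 := mk_W_lt hh
  have hKc : #K ≤ 𝔠 := (mk_le_succ hg).trans (Order.succ_le_of_lt hWc)
  have hunc : ℵ₁ ≤ #W := by
    rw [← succ_aleph0, Order.succ_le_iff]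
    by_contra hcon
    push Not at hcon
    have : Countable W := mk_le_aleph0_iff.1 hcon
    exact hh.uncountable (exists_surjective_nat W)
  have hW0 : ℵ₀ ≤ #W := aleph0_le_mk W
  have hKW : #(K1 × W) ≤ #W := by
    rw [mk_prod, lift_id, lift_id, mk_K1]
    exact (mul_le_mul' hunc le_rfl).trans (mul_eq_self hW0).le
  have hAt : #(Atom K1 W K) ≤ 𝔠 := by
    let f : Atom K1 W K → (K1 × W) × (K ⊕ ℕ × ℕ) := fun a => match a with
      | .prom i ξ α => ((i, ξ), Sum.inl α)
      | .md i ξ m l => ((i, ξ), Sum.inr (m, l))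
    have hf : Function.Injective f := by
      intro a b hab
      cases a <;> cases b <;> simp_all [f]
    refine (mk_le_of_injective hf).trans ?_
    rw [mk_prod, lift_id, lift_id, mk_sum, lift_id, lift_id]
    refine (mul_le_mul' (hKW.trans hWc.le) (add_le_add hKc
      (mk_le_aleph0.trans aleph0_le_continuum))).trans ?_
    rw [continuum_add_self, continuum_mul_self]
  have hCond : #(Cond K1 W K) ≤ 𝔠 := by
    rcases finite_or_infinite (Atom K1 W K) with h | h
    · exact (mk_le_aleph0 (α := Finset (Atom K1 W K))).trans aleph0_le_continuum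
    · rw [mk_finset_of_infinite]
      exact hAt
  have hseq : #(ℕ → ℕ → Cond K1 W K) ≤ 𝔠 := by
    rw [← power_def, ← power_def, mk_nat]
    calc ((#(Cond K1 W K)) ^ ℵ₀) ^ ℵ₀ ≤ (𝔠 ^ ℵ₀) ^ ℵ₀ :=
          power_le_power_right (power_le_power_right hCond)
      _ = 𝔠 := by rw [continuum_power_aleph0, continuum_power_aleph0]
  obtain ⟨E, hE⟩ : ∃ E : K → ℕ → ℕ → Cond K1 W K, Function.Surjective E := by
    rw [← mk_real] at hseq
    obtain ⟨f⟩ := hseq
    obtain ⟨e, he⟩ := hh.enum
    refine ⟨fun a => Function.invFun f (e a), fun g => ?_⟩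
    obtain ⟨a, ha⟩ := he (f g)
    refine ⟨a, ?_⟩
    have : e a = f g := funext fun n => propext (ha n).symm
    simp only [this]
    exact Function.leftInverse_invFun f.injective g
  obtain ⟨c, hc⟩ : ∃ c : K1 × W → ℕ → Bool, Function.Injective c := by
    have : #(K1 × W) ≤ #(ℕ → Bool) := (hKW.trans hWc.le).trans (by simp)
    obtain ⟨f⟩ := this
    exact ⟨f, f.injective⟩
  obtain ⟨e, he⟩ : ∃ e : W → K1 × W, Function.Surjective e := by
    obtain ⟨f⟩ := hKW
    have : Nonempty (K1 × W) := ⟨((exists_gt_K1 (C := ∅) Set.countable_empty).choose, w0)⟩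
    exact ⟨Function.invFun f, Function.invFun_surjective f.injective⟩
  choose π hπ using hg.seg
  have hΩ : ∀ C : Set K1, C.Countable → ∃ i, ∀ j ∈ C, j < i := fun C hC => exists_gt_K1 hC
  refine ⟨Po π E, inferInstance, ⟨⟨∅, fun j => ⟨by simp, by simp, by simp⟩⟩⟩, fun p => ⟨?_, ?_⟩⟩
  · exact coverN hπ (ccc hc hΩ) hE w0 hΩ e he p
  · exact noLipN hc hΩ hh.covM le_rfl p

end Pool.Agent.U775.CG
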