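import Pool.Agent.U775.CG.Defs

set_option autoImplicit false

/-!
# The forcing: an iteration of length `Ω` with finite supports

A condition is a finite set of atoms. The atom `prom i ξ α` is the promise that the function with
the index `(i, ξ)` maps the real number with the name `E α` to the one with the name `E (π α ξ)`.
The atom `md i ξ m l` is the promise that the value `l` of the modulus of continuity of this
function at `m` is `l`.
-/

namespace Pool.Agent.U775.CG

open Classical in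
section

variable {Ω W K : Type}

/-- atoms -/
inductive Atom (Ω W K : Type) : Type
  | prom : Ω → W → K → Atom Ω W K
  | md : Ω → W → ℕ → ℕ → Atom Ω W K

/-- the stage of an atom -/
def Atom.st : Atom Ω W K → Ω
  | .prom i _ _ => i
  | .md i _ _ _ => i

/-- the raw conditions -/
abbrev Cond (Ω W K : Type) : Type := Finset (Atom Ω W K)

/-- The set `r` contains an element of `Q` which puts `n` into the real with the name `E α`. -/
def Hit (E : K → ℕ → ℕ → Cond Ω W K) (Q : Set (Cond Ω W K)) (α : K) (n : ℕ) (r : Cond Ω W K) :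
    Prop := ∃ k, E α n k ∈ Q ∧ E α n k ⊆ r

/-- `p` forces the value `b` for the digit with the number `n` of the real with the name `E α`. -/
def FM (E : K → ℕ → ℕ → Cond Ω W K) (Q : Set (Cond Ω W K)) (p : Cond Ω W K) (α : K) (n : ℕ) :
    Bool → Prop
  | true => ∀ q ∈ Q, p ⊆ q → ∃ r ∈ Q, q ⊆ r ∧ Hit E Q α n r
  | false => ∀ q ∈ Q, p ⊆ q → ¬ Hit E Q α n q

/-- `p` decides the first `L` digits. -/
def Dec (E : K → ℕ → ℕ → Cond Ω W K) (Q : Set (Cond Ω W K)) (p : Cond Ω W K) (α : K) (L : ℕ)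
    (u : ℕ → Bool) : Prop := ∀ n < L, FM E Q p α n (u n)

/-- `p` forces that the real with the name `E α` is different from all previous ones. -/
def Least [LT K] (E : K → ℕ → ℕ → Cond Ω W K) (Q : Set (Cond Ω W K)) (p : Cond Ω W K) (α : K) :
    Prop := ∀ γ < α, ∀ q ∈ Q, p ⊆ q → ∃ r ∈ Q, q ⊆ r ∧ ∃ n b, FM E Q r γ n b ∧ FM E Q r α n (!b)

/-- `p` forces: if the first `l` digits of the reals named by `α`, `α'` agree, then so do the first
`m` digits of the reals named by `β`, `β'`. -/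
def Compat (E : K → ℕ → ℕ → Cond Ω W K) (Q : Set (Cond Ω W K)) (p : Cond Ω W K) (α α' β β' : K)
    (m l : ℕ) : Prop :=
  ∀ q ∈ Q, p ⊆ q → ∀ u v v', Dec E Q q α l u → Dec E Q q α' l u → Dec E Q q β m v →
    Dec E Q q β' m v' → ∀ i < m, v i = v' i

/-- the atoms of a stage below `j` -/
noncomputable def res [LT Ω] (j : Ω) (p : Cond Ω W K) : Cond Ω W K := p.filter fun a => a.st < j

/-- the part of the stage `j` of `p` is a condition of the iterand number `j` -/
structure VV [LT Ω] [LT K] (π : K → W → K) (E : K → ℕ → ℕ → Cond Ω W K) (j : Ω)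
    (Q : Set (Cond Ω W K)) (p : Cond Ω W K) : Prop where
  single : ∀ ξ m l l', Atom.md j ξ m l ∈ p → Atom.md j ξ m l' ∈ p → l = l'
  least : ∀ ξ α, Atom.prom j ξ α ∈ p → Least E Q (res j p) α
  compat : ∀ ξ α α' m l, Atom.prom j ξ α ∈ p → Atom.prom j ξ α' ∈ p → Atom.md j ξ m l ∈ p →
    Compat E Q (res j p) α α' (π α ξ) (π α' ξ) m l

end

section

variable {Ω W K : Type} [LinearOrder Ω] [WellFoundedLT Ω] [LinearOrder K]
  (π : K → W → K) (E : K → ℕ → ℕ → Cond Ω W K)

/-- the conditions of the stages below `i` -/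
def Qs : Ω → Set (Cond Ω W K) :=
  (wellFounded_lt (α := Ω)).fix fun i F =>
    {p | (∀ a ∈ p, a.st < i) ∧ ∀ (j : Ω) (hj : j < i), VV π E j (F j hj) p}

theorem Qs_eq (i : Ω) :
    Qs π E i = {p | (∀ a ∈ p, a.st < i) ∧ ∀ j < i, VV π E j (Qs π E j) p} := by
  unfold Qs
  rw [WellFounded.fix_eq]

theorem mem_Qs {i : Ω} {p : Cond Ω W K} :
    p ∈ Qs π E i ↔ (∀ a ∈ p, a.st < i) ∧ ∀ j < i, VV π E j (Qs π E j) p := by
  rw [Qs_eq]
  rfl

/-- the forcing notion -/
def Po (π : K → W → K) (E : K → ℕ → ℕ → Cond Ω W K) : Type :=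
  {p : Cond Ω W K // ∀ j, VV π E j (Qs π E j) p}

instance : Preorder (Po π E) where
  le p q := q.1 ⊆ p.1
  le_refl p := Finset.Subset.refl p.1
  le_trans _ _ _ h1 h2 := Finset.Subset.trans h2 h1

variable {π E}

theorem le_def {p q : Po π E} : p ≤ q ↔ q.1 ⊆ p.1 := Iff.rfl

section

variable {Q : Set (Cond Ω W K)} {p p' : Cond Ω W K} {α : K} {n : ℕ} {b b' : Bool}

omit [LinearOrder Ω] [WellFoundedLT Ω] [LinearOrder K] in
theorem Hit.mono (h : Hit E Q α n p) (hp : p ⊆ p') : Hit E Q α n p' :=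
  ⟨h.choose, h.choose_spec.1, h.choose_spec.2.trans hp⟩

omit [LinearOrder Ω] [WellFoundedLT Ω] [LinearOrder K] in
theorem FM.mono (h : FM E Q p α n b) (hp : p ⊆ p') : FM E Q p' α n b := by
  cases b
  · exact fun q hq hpq => h q hq (hp.trans hpq)
  · exact fun q hq hpq => h q hq (hp.trans hpq)

omit [LinearOrder Ω] [WellFoundedLT Ω] [LinearOrder K] in
theorem FM.unique (hp : p ∈ Q) (h : FM E Q p α n b) (h' : FM E Q p α n b') : b = b' := by
  cases b <;> cases b'
  · rfl
  · obtain ⟨r, hr, h1, h2⟩ := h' p hp (Finset.Subset.refl _)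
    exact absurd h2 (h r hr h1)
  · obtain ⟨r, hr, h1, h2⟩ := h p hp (Finset.Subset.refl _)
    exact absurd h2 (h' r hr h1)
  · rfl

omit [LinearOrder Ω] [WellFoundedLT Ω] [LinearOrder K] in
theorem exists_FM (hp : p ∈ Q) (α : K) (n : ℕ) : ∃ r ∈ Q, p ⊆ r ∧ ∃ b, FM E Q r α n b := by
  by_cases h : ∃ r ∈ Q, p ⊆ r ∧ Hit E Q α n r
  · obtain ⟨r, hr, h1, h2⟩ := h
    exact ⟨r, hr, h1, true, fun q hq hrq => ⟨q, hq, Finset.Subset.refl _, h2.mono hrq⟩⟩
  · push Not at h
    exact ⟨p, hp, Finset.Subset.refl _, false, fun q hq hpq => h q hq hpq⟩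

omit [LinearOrder Ω] [WellFoundedLT Ω] [LinearOrder K] in
theorem Dec.mono {L : ℕ} {u : ℕ → Bool} (h : Dec E Q p α L u) (hp : p ⊆ p') :
    Dec E Q p' α L u := fun n hn => (h n hn).mono hp

omit [LinearOrder Ω] [WellFoundedLT Ω] [LinearOrder K] in
theorem Dec.unique {L : ℕ} {u u' : ℕ → Bool} (hp : p ∈ Q) (h : Dec E Q p α L u)
    (h' : Dec E Q p α L u') : ∀ n < L, u n = u' n := fun n hn => (h n hn).unique hp (h' n hn)

omit [LinearOrder Ω] [WellFoundedLT Ω] [LinearOrder K] in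
theorem exists_Dec (hp : p ∈ Q) (α : K) (L : ℕ) : ∃ r ∈ Q, p ⊆ r ∧ ∃ u, Dec E Q r α L u := by
  induction L with
  | zero => exact ⟨p, hp, Finset.Subset.refl _, fun _ => false, fun n hn => absurd hn (by simp)⟩
  | succ L ih =>
    obtain ⟨r, hr, h1, u, h2⟩ := ih
    obtain ⟨r', hr', h3, b, h4⟩ := exists_FM (E := E) hr α L
    refine ⟨r', hr', h1.trans h3, fun n => if n = L then b else u n, fun n hn => ?_⟩
    by_cases hnL : n = L
    · subst hnL
      simpa using h4
    · simp only [hnL, if_false]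
      exact (h2 n (by omega)).mono h3

omit [LinearOrder Ω] [WellFoundedLT Ω] in
theorem Least.mono (h : Least E Q p α) (hp : p ⊆ p') : Least E Q p' α :=
  fun γ hγ q hq hpq => h γ hγ q hq (hp.trans hpq)

omit [LinearOrder Ω] [WellFoundedLT Ω] [LinearOrder K] in
theorem Compat.mono {α' β β' : K} {m l : ℕ} (h : Compat E Q p α α' β β' m l) (hp : p ⊆ p') :
    Compat E Q p' α α' β β' m l := fun q hq hpq => h q hq (hp.trans hpq)

end

omit [WellFoundedLT Ω] in
theorem VV.mono {j : Ω} {Q : Set (Cond Ω W K)} {p r : Cond Ω W K} (h : VV π E j Q p)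
    (h1 : ∀ a : Atom Ω W K, a.st = j → a ∈ r → a ∈ p) (h2 : res j p ⊆ res j r) :
    VV π E j Q r where
  single ξ m l l' ha hb := h.single ξ m l l' (h1 _ rfl ha) (h1 _ rfl hb)
  least ξ α ha := (h.least ξ α (h1 _ rfl ha)).mono h2
  compat ξ α α' m l ha hb hc := (h.compat ξ α α' m l (h1 _ rfl ha) (h1 _ rfl hb)
    (h1 _ rfl hc)).mono h2

omit [WellFoundedLT Ω] [LinearOrder K] in
theorem mem_res {j : Ω} {p : Cond Ω W K} {a : Atom Ω W K} : a ∈ res j p ↔ a ∈ p ∧ a.st < j := by
  classical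
  simp [res]

omit [WellFoundedLT Ω] [LinearOrder K] in
theorem res_subset (j : Ω) (p : Cond Ω W K) : res j p ⊆ p := fun _ ha => (mem_res.1 ha).1

omit [WellFoundedLT Ω] [LinearOrder K] in
theorem res_mono {j : Ω} {p q : Cond Ω W K} (h : p ⊆ q) : res j p ⊆ res j q :=
  fun _ ha => mem_res.2 ⟨h (mem_res.1 ha).1, (mem_res.1 ha).2⟩

omit [WellFoundedLT Ω] [LinearOrder K] in
theorem res_res {i j : Ω} (h : j ≤ i) (p : Cond Ω W K) : res j (res i p) = res j p := by
  ext a
  simp only [mem_res]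
  exact ⟨fun h' => ⟨h'.1.1, h'.2⟩, fun h' => ⟨⟨h'.1, h'.2.trans_le h⟩, h'.2⟩⟩

/-- the restriction of a condition is a condition of the initial segment -/
theorem res_mem {p : Cond Ω W K} (h : ∀ j, VV π E j (Qs π E j) p) (i : Ω) :
    res i p ∈ Qs π E i := by
  rw [mem_Qs]
  refine ⟨fun a ha => (mem_res.1 ha).2, fun j hj => (h j).mono (fun a _ ha => res_subset _ _ ha) ?_⟩
  rw [res_res hj.le]

/-- a condition of an initial segment is a condition -/
theorem valid_of_mem {i : Ω} {p : Cond Ω W K} (h : p ∈ Qs π E i) (j : Ω) :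
    VV π E j (Qs π E j) p := by
  rw [mem_Qs] at h
  by_cases hj : j < i
  · exact h.2 j hj
  · have hno : ∀ a ∈ p, a.st ≠ j := fun a ha he => hj (he ▸ h.1 a ha)
    exact ⟨fun ξ m l l' ha => absurd rfl (hno _ ha), fun ξ α ha => absurd rfl (hno _ ha),
      fun ξ α α' m l ha => absurd rfl (hno _ ha)⟩

theorem Qs_mono {i j : Ω} (h : i ≤ j) {p : Cond Ω W K} (hp : p ∈ Qs π E i) : p ∈ Qs π E j := by
  rw [mem_Qs]
  exact ⟨fun a ha => ((mem_Qs π E).1 hp).1 a ha |>.trans_le h, fun k _ => valid_of_mem hp k⟩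

open Classical in
/-- the amalgamation of a condition with a condition of an initial segment -/
theorem valid_union {i : Ω} {p q : Cond Ω W K} (hp : ∀ j, VV π E j (Qs π E j) p)
    (hq : q ∈ Qs π E i) (h : res i p ⊆ q) (j : Ω) : VV π E j (Qs π E j) (p ∪ q) := by
  have hqi := ((mem_Qs π E).1 hq).1
  by_cases hj : j < i
  · refine (valid_of_mem hq j).mono (fun a ha hau => ?_) (res_mono Finset.subset_union_right)
    rcases Finset.mem_union.1 hau with h1 | h1
    · exact h (mem_res.2 ⟨h1, ha ▸ hj⟩)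
    · exact h1
  · refine (hp j).mono (fun a ha hau => ?_) (res_mono Finset.subset_union_left)
    rcases Finset.mem_union.1 hau with h1 | h1
    · exact h1
    · exact absurd (hqi a h1) (by rw [ha]; exact hj)

end

end Pool.Agent.U775.CG
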