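import Pool.Agent.U775.CG.Dens

set_option autoImplicit false

/-!
# The iteration is `σ`-linked
-/

namespace Pool.Agent.U775.CG

open Pool.Agent.W876.Two.Gen (Ccc)

/-- the list of the first `L` values of `u` -/
def pre (L : ℕ) (u : ℕ → Bool) : List Bool := (List.range L).map u

@[simp] theorem length_pre (L : ℕ) (u : ℕ → Bool) : (pre L u).length = L := by simp [pre]

theorem pre_eq_iff {L : ℕ} {u v : ℕ → Bool} : pre L u = pre L v ↔ ∀ n < L, u n = v n := by
  simp [pre]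

section

variable {Ω W K : Type}

/-- the coordinate of an atom -/
def Atom.co : Atom Ω W K → Ω × W
  | .prom i ξ _ => (i, ξ)
  | .md i ξ _ _ => (i, ξ)

/-- the types of conditions -/
abbrev Ty : Type := ℕ × Finset (List Bool × ℕ × ℕ) × Finset (List Bool × List Bool × List Bool)

variable [LinearOrder Ω] [WellFoundedLT Ω] [LinearOrder K]
  {π : K → W → K} {E : K → ℕ → ℕ → Cond Ω W K}

/-- the digits `u`, `v` of the reals of the promise `prom i ξ α` are decided below `L` -/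
def DecAt (π : K → W → K) (E : K → ℕ → ℕ → Cond Ω W K) (p : Cond Ω W K) (i : Ω) (ξ : W) (α : K)
    (L : ℕ) (u v : ℕ → Bool) : Prop :=
  (∀ m l, Atom.md i ξ m l ∈ p → m ≤ L ∧ l ≤ L) ∧ Dec E (Qs π E i) (res i p) α L u ∧
    Dec E (Qs π E i) (res i p) (π α ξ) L v

/-- the condition `p` has the type `t` -/
structure IsTy (c : Ω × W → ℕ → Bool) (p : Po π E) (t : Ty) : Prop where
  sep : ∀ a ∈ p.1, ∀ a' ∈ p.1, pre t.1 (c a.co) = pre t.1 (c a'.co) → a.co = a'.co
  md : ∀ s m l, (s, m, l) ∈ t.2.1 ↔ ∃ i ξ, Atom.md i ξ m l ∈ p.1 ∧ pre t.1 (c (i, ξ)) = s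
  pr : ∀ i ξ α, Atom.prom i ξ α ∈ p.1 → ∃ L u v, DecAt π E p.1 i ξ α L u v ∧
    (pre t.1 (c (i, ξ)), pre L u, pre L v) ∈ t.2.2
  rp : ∀ x ∈ t.2.2, ∃ i ξ α L u v, Atom.prom i ξ α ∈ p.1 ∧ DecAt π E p.1 i ξ α L u v ∧
    x = (pre t.1 (c (i, ξ)), pre L u, pre L v)

variable {c : Ω × W → ℕ → Bool} {p p' : Po π E} {t : Ty}

theorem md_transfer (h : IsTy c p t) (h' : IsTy c p' t) {i : Ω} {ξ : W} {m l : ℕ}
    (hm : Atom.md i ξ m l ∈ p'.1) {a : Atom Ω W K} (ha : a ∈ p.1) (hco : a.co = (i, ξ)) :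
    Atom.md i ξ m l ∈ p.1 := by
  obtain ⟨i1, ξ1, h1, h2⟩ := (h.md _ m l).1 ((h'.md (pre t.1 (c (i, ξ))) m l).2 ⟨i, ξ, hm, rfl⟩)
  have h3 := h.sep _ h1 a ha (by rw [hco]; exact h2)
  rw [hco] at h3
  simp only [Atom.co, Prod.mk.injEq] at h3
  rw [h3.1, h3.2] at h1
  exact h1

theorem Dec.congr {Q : Set (Cond Ω W K)} {q : Cond Ω W K} {α : K} {L : ℕ} {u v : ℕ → Bool}
    (h : Dec E Q q α L u) (huv : ∀ n < L, u n = v n) : Dec E Q q α L v :=
  fun n hn => huv n hn ▸ h n hn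

theorem mixed (h : IsTy c p t) (h' : IsTy c p' t) {j : Ω} {ξ : W} {α α' : K} {m l : ℕ}
    (h1 : Atom.prom j ξ α ∈ p.1) (h2 : Atom.prom j ξ α' ∈ p'.1) (h3 : Atom.md j ξ m l ∈ p.1)
    (h4 : Atom.md j ξ m l ∈ p'.1) {R : Cond Ω W K} (hR : res j p.1 ⊆ R) (hR' : res j p'.1 ⊆ R) :
    Compat E (Qs π E j) R α α' (π α ξ) (π α' ξ) m l := by
  obtain ⟨L, u, v, ⟨hL, d1, d2⟩, h5⟩ := h'.pr _ _ _ h2
  obtain ⟨j1, ξ1, α1, L1, u1, v1, h6, ⟨-, d3, d4⟩, h7⟩ := h.rp _ h5
  simp only [Prod.mk.injEq] at h7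
  obtain ⟨e1, e2, e3⟩ := h7
  have h8 := h.sep _ h6 _ h1 (by simpa [Atom.co] using e1.symm)
  simp only [Atom.co, Prod.mk.injEq] at h8
  obtain ⟨rfl, rfl⟩ := h8
  have hLL : L = L1 := by simpa using congrArg List.length e2
  subst hLL
  rw [pre_eq_iff] at e2 e3
  have hmL := hL m l h4
  intro q hq hRq x y y' g1 g2 g3 g4
  have a1 : ∀ n < l, x n = u n := fun n hn =>
    (g2 n hn).unique hq ((d1 n (by omega)).mono (hR'.trans hRq))
  have a2 : ∀ n < m, y' n = v n := fun n hn =>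
    (g4 n hn).unique hq ((d2 n (by omega)).mono (hR'.trans hRq))
  have a3 : Dec E (Qs π E j1) q α1 l x := fun n hn => by
    rw [a1 n hn, e2 n (by omega)]
    exact (d3 n (by omega)).mono (hR.trans hRq)
  have a4 : Dec E (Qs π E j1) q (π α1 ξ1) m v := fun n hn => by
    rw [e3 n (by omega)]
    exact (d4 n (by omega)).mono (hR.trans hRq)
  have a5 := (p.2 j1).compat ξ1 α α1 m l h1 h6 h3 q hq (hR.trans hRq) x y v g1 a3 g3 a4
  exact fun n hn => (a5 n hn).trans (a2 n hn).symm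

open Classical in
theorem linked (h : IsTy c p t) (h' : IsTy c p' t) : ∃ r : Po π E, r ≤ p ∧ r ≤ p' := by
  refine ⟨⟨p.1 ∪ p'.1, fun j => ⟨?_, ?_, ?_⟩⟩, Finset.subset_union_left,
    Finset.subset_union_right⟩
  · intro ξ m l l' h1 h2
    rcases Finset.mem_union.1 h1 with g1 | g1 <;> rcases Finset.mem_union.1 h2 with g2 | g2
    · exact (p.2 j).single _ _ _ _ g1 g2
    · exact (p.2 j).single _ _ _ _ g1 (md_transfer h h' g2 g1 rfl)
    · exact (p.2 j).single _ _ _ _ (md_transfer h h' g1 g2 rfl) g2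
    · exact (p'.2 j).single _ _ _ _ g1 g2
  · intro ξ α h1
    rcases Finset.mem_union.1 h1 with g1 | g1
    · exact ((p.2 j).least _ _ g1).mono (res_mono Finset.subset_union_left)
    · exact ((p'.2 j).least _ _ g1).mono (res_mono Finset.subset_union_right)
  · intro ξ α α' m l h1 h2 h3
    have hm : ∀ γ, Atom.prom j ξ γ ∈ p.1 → Atom.md j ξ m l ∈ p.1 := by
      intro γ hγ
      rcases Finset.mem_union.1 h3 with g3 | g3
      · exact g3
      · exact md_transfer h h' g3 hγ rfl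
    have hm' : ∀ γ, Atom.prom j ξ γ ∈ p'.1 → Atom.md j ξ m l ∈ p'.1 := by
      intro γ hγ
      rcases Finset.mem_union.1 h3 with g3 | g3
      · exact md_transfer h' h g3 hγ rfl
      · exact g3
    rcases Finset.mem_union.1 h1 with g1 | g1 <;> rcases Finset.mem_union.1 h2 with g2 | g2
    · exact ((p.2 j).compat _ _ _ _ _ g1 g2 (hm _ g1)).mono (res_mono Finset.subset_union_left)
    · exact mixed h h' g1 g2 (hm _ g1) (hm' _ g2) (res_mono Finset.subset_union_left)
        (res_mono Finset.subset_union_right)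
    · exact mixed h' h g1 g2 (hm' _ g1) (hm _ g2) (res_mono Finset.subset_union_right)
        (res_mono Finset.subset_union_left)
    · exact ((p'.2 j).compat _ _ _ _ _ g1 g2 (hm' _ g1)).mono
        (res_mono Finset.subset_union_right)

/-! ### The determined conditions are dense -/

/-- the digits are decided for every promise -/
def Det (π : K → W → K) (E : K → ℕ → ℕ → Cond Ω W K) (p : Cond Ω W K) : Prop :=
  ∀ i ξ α, Atom.prom i ξ α ∈ p → ∃ L u v, DecAt π E p i ξ α L u v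

theorem exists_Dec_finset {Q : Set (Cond Ω W K)} {p : Cond Ω W K} (hp : p ∈ Q) (A : Finset K)
    (L : ℕ) : ∃ q ∈ Q, p ⊆ q ∧ ∀ α ∈ A, ∃ u, Dec E Q q α L u := by
  classical
  induction A using Finset.induction_on with
  | empty => exact ⟨p, hp, Finset.Subset.refl _, by simp⟩
  | insert α A hα ih =>
    obtain ⟨q, hq, hpq, h⟩ := ih
    obtain ⟨r, hr, hqr, u, hu⟩ := exists_Dec (E := E) hq α L
    refine ⟨r, hr, hpq.trans hqr, fun β hβ => ?_⟩
    rcases Finset.mem_insert.1 hβ with rfl | hβ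
    · exact ⟨u, hu⟩
    · obtain ⟨v, hv⟩ := h β hβ
      exact ⟨v, hv.mono hqr⟩

omit [LinearOrder Ω] [WellFoundedLT Ω] [LinearOrder K] in
theorem exists_bound (p : Cond Ω W K) :
    ∃ L : ℕ, ∀ i ξ m l, Atom.md i ξ m l ∈ p → m ≤ L ∧ l ≤ L := by
  classical
  induction p using Finset.induction_on with
  | empty => exact ⟨0, by simp⟩
  | insert a p ha ih =>
    obtain ⟨L, hL⟩ := ih
    cases a with
    | prom i ξ α =>
      refine ⟨L, fun i' ξ' m l h => ?_⟩
      rcases Finset.mem_insert.1 h with h | h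
      · exact absurd h (by simp)
      · exact hL _ _ _ _ h
    | md i ξ m l =>
      refine ⟨max L (max m l), fun i' ξ' m' l' h => ?_⟩
      rcases Finset.mem_insert.1 h with h | h
      · simp only [Atom.md.injEq] at h
        omega
      · have := hL _ _ _ _ h
        omega

open Classical in
theorem exists_det (i : Ω) : ∀ p ∈ Qs π E i, ∃ q ∈ Qs π E i, p ⊆ q ∧ Det π E q := by
  induction i using (wellFounded_lt (α := Ω)).induction with
  | _ i ih =>
  intro p hp
  rcases p.eq_empty_or_nonempty with rfl | hne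
  · exact ⟨∅, hp, Finset.Subset.refl _, fun i ξ α h => absurd h (by simp)⟩
  obtain ⟨a0, ha0, hmax⟩ := p.exists_max_image Atom.st hne
  have hpi := ((mem_Qs π E).1 hp).1
  have hji : a0.st < i := hpi _ ha0
  obtain ⟨L, hL⟩ := exists_bound p
  let A : Finset K := p.biUnion fun a => match a with
    | .prom _ ξ α => {α, π α ξ}
    | .md _ _ _ _ => ∅
  have hA : ∀ i' ξ' α, Atom.prom i' ξ' α ∈ p → α ∈ A ∧ π α ξ' ∈ A := fun i' ξ' α h =>
    ⟨Finset.mem_biUnion.2 ⟨_, h, by simp⟩, Finset.mem_biUnion.2 ⟨_, h, by simp⟩⟩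
  have hval := valid_of_mem hp
  obtain ⟨q0, hq0, hpq0, hdec⟩ := exists_Dec_finset (E := E) (res_mem hval a0.st) A L
  obtain ⟨q1, hq1, hq01, hdet⟩ := ih a0.st hji q0 hq0
  have hq1i := ((mem_Qs π E).1 hq1).1
  have hpq1 : res a0.st p ⊆ q1 := hpq0.trans hq01
  have hq1r : q1 ⊆ res a0.st (p ∪ q1) := fun a ha =>
    mem_res.2 ⟨Finset.mem_union_right _ ha, hq1i a ha⟩
  refine ⟨p ∪ q1, ?_, Finset.subset_union_left, fun i' ξ α h => ?_⟩
  · rw [mem_Qs]
    refine ⟨fun a ha => ?_, fun j _ => valid_union hval hq1 hpq1 j⟩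
    rcases Finset.mem_union.1 ha with h | h
    · exact hpi a h
    · exact (hq1i a h).trans hji
  · rcases lt_trichotomy i' a0.st with hi' | hi' | hi'
    · have hin : ∀ a : Atom Ω W K, a.st = i' → a ∈ p ∪ q1 → a ∈ q1 := by
        intro a ha hau
        rcases Finset.mem_union.1 hau with h | h
        · exact hpq1 (mem_res.2 ⟨h, ha ▸ hi'⟩)
        · exact h
      obtain ⟨L', u, v, hL', d1, d2⟩ := hdet i' ξ α (hin _ rfl h)
      exact ⟨L', u, v, fun m l hm => hL' m l (hin _ rfl hm),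
        d1.mono (res_mono Finset.subset_union_right), d2.mono (res_mono Finset.subset_union_right)⟩
    · subst hi'
      have hin : ∀ a : Atom Ω W K, a.st = a0.st → a ∈ p ∪ q1 → a ∈ p := by
        intro a ha hau
        rcases Finset.mem_union.1 hau with h | h
        · exact h
        · exact absurd (hq1i a h) (by rw [ha]; exact lt_irrefl _)
      obtain ⟨g1, g2⟩ := hA _ _ _ (hin _ rfl h)
      obtain ⟨u, hu⟩ := hdec _ g1
      obtain ⟨v, hv⟩ := hdec _ g2
      exact ⟨L, u, v, fun m l hm => hL _ _ m l (hin _ rfl hm), hu.mono (hq01.trans hq1r),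
        hv.mono (hq01.trans hq1r)⟩
    · exfalso
      rcases Finset.mem_union.1 h with h | h
      · exact absurd (hmax _ h) (not_le.2 hi')
      · exact absurd ((hq1i _ h).trans hi') (lt_irrefl _)

theorem exists_sepN (hc : Function.Injective c) (X : Finset (Ω × W)) :
    ∃ N, ∀ x ∈ X, ∀ y ∈ X, pre N (c x) = pre N (c y) → x = y := by
  classical
  have h : ∀ z : (Ω × W) × (Ω × W), ∃ n, z.1 ≠ z.2 → c z.1 n ≠ c z.2 n := by
    intro z
    by_cases hz : z.1 = z.2
    · exact ⟨0, fun h => absurd hz h⟩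
    · by_contra hcon
      push Not at hcon
      exact hz (hc (funext fun n => (hcon n).2))
  choose f hf using h
  refine ⟨(X ×ˢ X).sup f + 1, fun x hx y hy hxy => ?_⟩
  by_contra hne
  have h1 : f (x, y) ≤ (X ×ˢ X).sup f := Finset.le_sup (f := f) (Finset.mem_product.2 ⟨hx, hy⟩)
  exact hf (x, y) hne (pre_eq_iff.1 hxy _ (by omega))

open Classical in
theorem exists_type (hc : Function.Injective c) (hdet : Det π E p.1) : ∃ t, IsTy c p t := by
  obtain ⟨N, hN⟩ := exists_sepN hc (p.1.image Atom.co)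
  have hg : ∀ a : Atom Ω W K, ∃ x : List Bool × List Bool × List Bool,
      ∀ i ξ α, a = Atom.prom i ξ α → a ∈ p.1 → ∃ L u v, DecAt π E p.1 i ξ α L u v ∧
        x = (pre N (c (i, ξ)), pre L u, pre L v) := by
    intro a
    cases a with
    | prom i ξ α =>
      by_cases ha : Atom.prom i ξ α ∈ p.1
      · obtain ⟨L, u, v, h⟩ := hdet i ξ α ha
        refine ⟨(pre N (c (i, ξ)), pre L u, pre L v), fun i' ξ' α' he _ => ⟨L, u, v, ?_, ?_⟩⟩
        · simp only [Atom.prom.injEq] at he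
          rw [← he.1, ← he.2.1, ← he.2.2]
          exact h
        · simp only [Atom.prom.injEq] at he
          rw [← he.1, ← he.2.1]
      · exact ⟨default, fun _ _ _ _ h => absurd h ha⟩
    | md i ξ m l => exact ⟨default, fun _ _ _ h => absurd h (by simp)⟩
  choose g hg using hg
  let A : Finset (List Bool × ℕ × ℕ) := p.1.biUnion fun a => match a with
    | .prom _ _ _ => ∅
    | .md i ξ m l => {(pre N (c (i, ξ)), m, l)}
  let B : Finset (List Bool × List Bool × List Bool) := p.1.biUnion fun a => match a with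
    | .prom i ξ α => {g (.prom i ξ α)}
    | .md _ _ _ _ => ∅
  refine ⟨(N, A, B), fun a ha a' ha' h => hN _ (Finset.mem_image_of_mem _ ha) _
    (Finset.mem_image_of_mem _ ha') h, fun s m l => ⟨fun h => ?_, ?_⟩, fun i ξ α h => ?_,
    fun x hx => ?_⟩
  · obtain ⟨a, ha, h⟩ := Finset.mem_biUnion.1 h
    cases a with
    | prom i ξ α => simp at h
    | md i ξ m' l' =>
      simp only [Finset.mem_singleton, Prod.mk.injEq] at h
      obtain ⟨rfl, rfl, rfl⟩ := h
      exact ⟨i, ξ, ha, rfl⟩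
  · rintro ⟨i, ξ, h, rfl⟩
    exact Finset.mem_biUnion.2 ⟨_, h, by simp⟩
  · obtain ⟨L, u, v, h1, h2⟩ := hg _ i ξ α rfl h
    exact ⟨L, u, v, h1, Finset.mem_biUnion.2 ⟨_, h, by simp [h2]⟩⟩
  · obtain ⟨a, ha, h⟩ := Finset.mem_biUnion.1 hx
    cases a with
    | prom i ξ α =>
      simp only [Finset.mem_singleton] at h
      obtain ⟨L, u, v, h1, h2⟩ := hg _ i ξ α rfl ha
      exact ⟨i, ξ, α, L, u, v, ha, h1, h.trans h2⟩
    | md i ξ m' l' => simp at h

/-- every condition has an extension which has a type -/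
theorem exists_le_type (hc : Function.Injective c)
    (hΩ : ∀ C : Set Ω, C.Countable → ∃ i, ∀ j ∈ C, j < i) (p : Po π E) :
    ∃ q ≤ p, ∃ t, IsTy c q t := by
  obtain ⟨i, hi⟩ := hΩ ((fun a : Atom Ω W K => a.st) '' (p.1 : Set (Atom Ω W K)))
    ((Finset.countable_toSet _).image _)
  have hp : p.1 ∈ Qs π E i :=
    (mem_Qs π E).2 ⟨fun a ha => hi _ ⟨a, ha, rfl⟩, fun j _ => p.2 j⟩
  obtain ⟨q, hq, hpq, hdet⟩ := exists_det i p.1 hp
  exact ⟨⟨q, valid_of_mem hq⟩, hpq, exists_type (p := ⟨q, valid_of_mem hq⟩) hc hdet⟩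

theorem ccc (hc : Function.Injective c)
    (hΩ : ∀ C : Set Ω, C.Countable → ∃ i, ∀ j ∈ C, j < i) : Ccc (Po π E) := by
  intro Y f hY
  choose q hq t ht using fun y => exists_le_type (c := c) hc hΩ (f y)
  have : ¬ Function.Injective t := fun h => hY h.countable
  simp only [Function.Injective, not_forall] at this
  obtain ⟨y, y', h1, h2⟩ := this
  obtain ⟨r, hr, hr'⟩ := linked (ht y) (h1 ▸ ht y')
  exact ⟨y, y', h2, r, hr.trans (hq y), hr'.trans (hq y')⟩

end

end Pool.Agent.U775.CG
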