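import Pool.Agent.U775.CG.Cover

set_option autoImplicit false

/-!
# The forcing notion forces that few Lipschitz codes do not suffice
-/

namespace Pool.Agent.U775.CG

open Cardinal
open Pool.Agent.Helper126.Sus.Forc
open Pool.Agent.W876.Two.Gen (Ccc exists_antichain meets_fground mem_fand)

section

theorem init_append {x : ℕ → Prop} {s : List Bool} (h : Init x s) (k : ℕ) :
    ∃ t, Init x (s ++ t) ∧ k ≤ (s ++ t).length := by
  classical
  refine ⟨(List.range k).map fun j => decide (x (s.length + j)), fun i hi => ?_, by simp⟩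
  by_cases h1 : i < s.length
  · rw [List.getD_append _ _ _ _ h1]
    exact h i h1
  · push Not at h1
    rw [List.getD_append_right _ _ _ _ h1]
    have h2 : i - s.length < k := by
      rw [List.length_append, List.length_map, List.length_range] at hi
      omega
    rw [List.getD_eq_getElem _ _ (by simpa using h2)]
    simp only [List.getElem_map, List.getElem_range, decide_eq_true_eq]
    rw [show s.length + (i - s.length) = i by omega]

theorem Init.left {x : ℕ → Prop} {s t : List Bool} (h : Init x (s ++ t)) : Init x s := by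
  intro i hi
  have := h i (by rw [List.length_append]; omega)
  rwa [List.getD_append _ _ _ _ hi] at this

theorem Init.agree {x y : ℕ → Prop} {s : List Bool} (hx : Init x s) (hy : Init y s) {i : ℕ}
    (hi : i < s.length) : x i ↔ y i := (hx i hi).trans (hy i hi).symm

theorem init_nil (x : ℕ → Prop) : Init x [] := fun i hi => absurd hi (by simp)

/-- two initial segments of the same length of sequences that agree are equal -/
theorem Init.eq {x y : ℕ → Prop} {s t : List Bool} (hx : Init x s) (hy : Init y t)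
    (hl : s.length = t.length) (h : ∀ i < s.length, (x i ↔ y i)) : s = t := by
  refine list_eq hl fun i hi => ?_
  have h1 := hx i hi
  have h2 := hy i (hl ▸ hi)
  have h3 : (s.getD i false = true) ↔ (t.getD i false = true) := by rw [← h1, ← h2, h i hi]
  exact Bool.eq_iff_iff.2 h3

open Classical in
/-- the code of the nowhere dense set `{z}` -/
noncomputable def avoid (z : ℕ → Prop) (s : List Bool) : List Bool :=
  if Init z s then [decide (¬ z s.length)] else []

theorem ne_of_avoid {x z : ℕ → Prop} {s : List Bool} (h : Init x (s ++ avoid z s)) : x ≠ z := by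
  rintro rfl
  by_cases h1 : Init x s
  · rw [avoid, if_pos h1] at h
    have := h s.length (by simp)
    rw [List.getD_append_right _ _ _ _ le_rfl] at this
    simp at this
  · exact h1 h.left

variable {W : Type}

open Classical in
theorem cov_of_le (hcov : ∀ D : W → List Bool → List Bool, ∃ x : ℕ → Prop, ∀ w, ∃ s,
    Init x (s ++ D w s)) {V : Type} (hV : #V ≤ #W) (D : V → List Bool → List Bool) :
    ∃ x : ℕ → Prop, ∀ v, ∃ s, Init x (s ++ D v s) := by
  obtain ⟨f⟩ := hV
  obtain ⟨x, hx⟩ := hcov fun w => if h : ∃ v, f v = w then D h.choose else fun _ => []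
  refine ⟨x, fun v => ?_⟩
  obtain ⟨s, hs⟩ := hx (f v)
  have h : ∃ v', f v' = f v := ⟨v, rfl⟩
  rw [dif_pos h, f.injective h.choose_spec] at hs
  exact ⟨s, hs⟩

open Classical in
theorem exists_uncovered [Infinite W] (hcov : ∀ D : W → List Bool → List Bool, ∃ x : ℕ → Prop,
    ∀ w, ∃ s, Init x (s ++ D w s)) {V : Type} (hV : #V ≤ #W)
    (R : V → (ℕ → Prop) → (ℕ → Prop) → Prop)
    (hR : ∀ v, ∃ c : ℕ, ∀ x y x' y', R v x y → R v x' y' → ∀ n, (∀ i < n + c, (x i ↔ x' i)) →
      ∀ i < n, (y i ↔ y' i)) : ∃ x y, ∀ v, ¬ R v x y ∧ ¬ R v y x := by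
  have hW : ℵ₀ ≤ #W := aleph0_le_mk W
  have hlist : #(V × List Bool) ≤ #W := by
    rw [mk_prod, lift_id, lift_id]
    exact (mul_le_mul' hV (mk_le_aleph0.trans hW)).trans (mul_eq_self hW).le
  have hsum : #(V ⊕ V) ≤ #W := by
    rw [mk_sum, lift_id]
    exact (add_le_add hV hV).trans (add_eq_self hW).le
  let dense : V → List Bool → (ℕ → Prop) → Prop := fun v s y => ∀ t, ∃ x, R v x y ∧ Init x (s ++ t)
  have huniq : ∀ v s y y', dense v s y → dense v s y' → y = y' := by
    intro v s y y' h1 h2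
    obtain ⟨c, hc⟩ := hR v
    funext i
    obtain ⟨x, hx1, hx2⟩ := h1 []
    rw [List.append_nil] at hx2
    obtain ⟨t, ht1, ht2⟩ := init_append hx2 (i + 1 + c)
    obtain ⟨x', hx1', hx2'⟩ := h2 t
    exact propext (hc x y x' y' hx1 hx1' (i + 1)
      (fun j hj => ht1.agree hx2' (by omega)) i (by omega))
  let z : V × List Bool → ℕ → Prop := fun a =>
    if h : ∃ y, dense a.1 a.2 y then h.choose else fun _ => True
  obtain ⟨y, hy⟩ := cov_of_le hcov hlist fun a => avoid (z a)
  have hnd : ∀ v s, ¬ dense v s y := by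
    intro v s h
    obtain ⟨s', hs'⟩ := hy (v, s)
    have h' : ∃ y, dense v s y := ⟨y, h⟩
    have h2 : z (v, s) = h'.choose := dif_pos h'
    exact ne_of_avoid hs' (h2 ▸ huniq v s _ _ h h'.choose_spec)
  simp only [dense, not_forall, not_exists, not_and] at hnd
  choose D hD using hnd
  let z' : V → ℕ → Prop := fun v => if h : ∃ x, R v y x then h.choose else fun _ => True
  obtain ⟨x, hx⟩ := cov_of_le hcov hsum fun a => match a with
    | .inl v => D v
    | .inr v => avoid (z' v)
  refine ⟨x, y, fun v => ⟨fun h => ?_, fun h => ?_⟩⟩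
  · obtain ⟨s, hs⟩ := hx (.inl v)
    exact hD v s x h hs
  · obtain ⟨s, hs⟩ := hx (.inr v)
    have h' : ∃ x, R v y x := ⟨x, h⟩
    have h2 : z' v = h'.choose := dif_pos h'
    refine ne_of_avoid hs (h2 ▸ funext fun i => propext ?_)
    obtain ⟨c, hc⟩ := hR v
    exact hc y x y _ h h'.choose_spec (i + 1) (fun _ _ => Iff.rfl) i (by omega)

end

section

variable {P : Type} [Preorder P]

/-- the canonical name of `x` -/
def chk (P : Type) [Preorder P] (x : ℕ → Prop) (n : ℕ) : Set P := fground (x n)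

theorem init_of_InitN {x : ℕ → Prop} {s : List Bool} {p : P} (h : p ∈ InitN (chk P x) s) :
    Init x s := by
  intro i hi
  have h1 := h i hi
  constructor
  · intro hx
    obtain ⟨r, -, hr⟩ := mem_fimp.1 h1.1 p le_rfl (meets_fground.2 hx)
    exact hr
  · intro hs
    obtain ⟨r, -, hr⟩ := mem_fimp.1 h1.2 p le_rfl hs
    exact meets_fground.1 hr

theorem MapsN_down {S : List Bool → List Bool → Set P} {x y : ℕ → Set P} {p q : P}
    (h : p ∈ MapsN S x y) (hq : q ≤ p) : q ∈ MapsN S x y := fun n => fex_down (h n) hq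

theorem IsCodeN_down {S : List Bool → List Bool → Set P} {p q : P}
    (h : p ∈ IsCodeN S) (hq : q ≤ p) : q ∈ IsCodeN S :=
  fun s v s' v' hl => fimp_down (h s v s' v' hl) hq

end

section

variable {Ω W K : Type} [LinearOrder Ω] [WellFoundedLT Ω] [LinearOrder K]
  {π : K → W → K} {E : K → ℕ → ℕ → Cond Ω W K}

theorem noLipN [Infinite W] {c : Ω × W → ℕ → Bool} (hc : Function.Injective c)
    (hΩ : ∀ C : Set Ω, C.Countable → ∃ i, ∀ j ∈ C, j < i)
    (hcov : ∀ D : W → List Bool → List Bool, ∃ x : ℕ → Prop, ∀ w, ∃ s, Init x (s ++ D w s))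
    {V : Type} (hV : #V ≤ #W) (p : Po π E) : p ∈ NoLipN (Po π E) V := by
  intro T
  refine mem_fimp.2 fun q _ hq => ⟨q, le_rfl, ?_⟩
  have hW : ℵ₀ ≤ #W := aleph0_le_mk W
  have hcard : #(V × Ty × ℕ) ≤ #W := by
    rw [mk_prod, lift_id, lift_id]
    exact (mul_le_mul' hV (mk_le_aleph0.trans hW)).trans (mul_eq_self hW).le
  let P := Po π E
  let R : V × Ty × ℕ → (ℕ → Prop) → (ℕ → Prop) → Prop := fun a x y =>
    ∃ q' ≤ q, IsTy c q' a.2.1 ∧ q' ∈ MapsN (T a.1) (chk P x) (chk P y) ∧
      ∀ s u, q' ∈ fimp (meets (T a.1 s u)) (fground (s.length = u.length + a.2.2))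
  obtain ⟨x, y, hxy⟩ := exists_uncovered hcov hcard R (by
    rintro ⟨v, t, k⟩
    refine ⟨k, fun x y x' y' h h' n hn => ?_⟩
    obtain ⟨q1, hq1, ht1, hm1, hl1⟩ := h
    obtain ⟨q2, hq2, ht2, hm2, hl2⟩ := h'
    obtain ⟨r, hr1, hr2⟩ := linked ht1 ht2
    obtain ⟨r1, hr1', s, h1⟩ := mem_fex.1 (MapsN_down hm1 hr1 n) r le_rfl
    obtain ⟨r2, hr2', u, hlen, hTu, hix, hiy⟩ := mem_fex.1 h1 r1 le_rfl
    have hr2r : r2 ≤ r := hr2'.trans hr1'
    obtain ⟨r3, hr3', s', h3⟩ := mem_fex.1 (MapsN_down hm2 hr2 n) r2 hr2r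
    obtain ⟨r4, hr4', u', hlen', hTu', hix', hiy'⟩ := mem_fex.1 h3 r3 le_rfl
    have hr42 : r4 ≤ r2 := hr4'.trans hr3'
    have hT4 : r4 ∈ meets (T v s u) := meets_down hTu hr42
    obtain ⟨_, _, e1⟩ := mem_fimp.1 (hl1 s u) r4 (hr42.trans (hr2r.trans hr1)) hT4
    obtain ⟨_, _, e2⟩ := mem_fimp.1 (hl2 s' u') r4 (hr42.trans (hr2r.trans hr2)) hTu'
    change s.length = u.length + k at e1
    change s'.length = u'.length + k at e2
    change u.length = n at hlen
    change u'.length = n at hlen'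
    have hss : s = s' := (init_of_InitN hix).eq (init_of_InitN hix') (by omega)
      fun i hi => hn i (by omega)
    obtain ⟨_, _, e3⟩ := mem_fimp.1 ((hq v).1 s u s' u' (hlen.trans hlen'.symm)) r4
      (hr42.trans (hr2r.trans (hr1.trans hq1))) ⟨hT4, hTu'⟩
    change s.length = s'.length ∧ (s = s' → u = u') at e3
    have huu := e3.2 hss
    subst huu
    exact fun i hi => (init_of_InitN hiy).agree (init_of_InitN hiy') (by omega))
  have key : ∀ (x y : ℕ → Prop), (∀ a, ¬ R a x y) → ∀ v,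
      q ∈ fnot (MapsN (T v) (chk P x) (chk P y)) := by
    intro x y h v q' hq' hm
    obtain ⟨q2, hq2, k, hk⟩ := mem_fex.1 ((hq v).2) q' hq'
    obtain ⟨q3, hq3, t, ht⟩ := exists_le_type (c := c) hc hΩ q2
    exact h (v, t, k) ⟨q3, hq3.trans (hq2.trans hq'), ht, MapsN_down hm (hq3.trans hq2),
      fun s u => fimp_down (hk s u) hq3⟩
  refine mem_fex.2 fun r hr => ⟨r, le_rfl, chk P x, mem_fex.2 fun r' hr' =>
    ⟨r', le_rfl, chk P y, fun v => ⟨?_, ?_⟩⟩⟩
  · exact fnot_down (key x y (fun a => (hxy a).1) v) (hr'.trans hr)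
  · exact fnot_down (key y x (fun a => (hxy a).2) v) (hr'.trans hr)

end

end Pool.Agent.U775.CG
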