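import Pool.Agent.U775.CG.RealD

set_option autoImplicit false

/-!
# Consequences of the principle: continuous functions
-/

namespace Pool.Agent.U775.CG

open Cardinal Real

/-- the Cantor space -/
abbrev Bs : Type := ℕ → Fin 2

/-- the set with the characteristic function `x` -/
def tp (x : Bs) (n : ℕ) : Prop := x n = 1

theorem tp_injective : Function.Injective tp := by
  intro x y h
  funext n
  have h1 : (x n = 1) ↔ (y n = 1) := by
    have := congrFun h n
    simpa [tp] using this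
  generalize x n = a at h1
  generalize y n = b at h1
  revert a b
  decide

theorem ofDigits_succ (a : Bs) :
    ofDigits a = (a 0 : ℕ) / 2 + 1 / 2 * ofDigits fun i => a (i + 1) := by
  rw [ofDigits_eq_sum_add_ofDigits a 1, Finset.sum_range_one]
  simp only [ofDigitsTerm]
  norm_num
  ring

theorem eq_zero_of_ofDigits {a : Bs} (h : ofDigits a = 0) (n : ℕ) : a n = 0 := by
  by_contra hn
  have h1 : a n = 1 := by
    generalize a n = b at hn
    revert b
    decide
  have h2 : ofDigitsTerm a n ≤ ofDigits a :=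
    summable_ofDigitsTerm.le_tsum n fun _ _ => ofDigitsTerm_nonneg
  rw [h] at h2
  simp only [ofDigitsTerm, h1] at h2
  have : (0 : ℝ) < (2 : ℝ) ^ (n + 1) := by positivity
  norm_num at h2
  linarith

theorem eq_one_of_ofDigits (n : ℕ) : ∀ a : Bs, ofDigits a = 1 → a n = 1 := by
  have h0 : ∀ a : Bs, ofDigits a = 1 → a 0 = 1 ∧ ofDigits (fun i => a (i + 1)) = 1 := by
    intro a h
    have h1 := ofDigits_succ a
    have h2 := ofDigits_le_one fun i => a (i + 1)
    by_cases ha : a 0 = 1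
    · refine ⟨ha, ?_⟩
      rw [h, ha] at h1
      norm_num at h1
      linarith
    · have ha' : a 0 = 0 := by
        generalize a 0 = b at ha
        revert b
        decide
      rw [h, ha'] at h1
      norm_num at h1
      linarith
  induction n with
  | zero => exact fun a h => (h0 a h).1
  | succ n ih => exact fun a h => ih _ (h0 a h).2

/-- the eventually constant sequences -/
def Ev : Set Bs := {x | ∃ n c, ∀ k, n ≤ k → x k = c}

theorem countable_Ev : Ev.Countable := by
  classical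
  refine (Set.countable_range fun a : (Σ n : ℕ, (Fin n → Fin 2)) × Fin 2 =>
    (fun k : ℕ => if h : k < a.1.1 then a.1.2 ⟨k, h⟩ else a.2 : Bs)).mono ?_
  rintro x ⟨n, c, h⟩
  refine ⟨(⟨n, fun i => x i⟩, c), funext fun k => ?_⟩
  by_cases hk : k < n
  · simp [hk]
  · simp [hk, h k (by omega)]

theorem ev_aux {x y : Bs} {n : ℕ} (h : ∀ i < n, x i = y i) (hx : x n = 0) (hy : y n = 1)
    (he : ofDigits x = ofDigits y) : x ∈ Ev ∧ y ∈ Ev := by
  rw [ofDigits_eq_sum_add_ofDigits x (n + 1), ofDigits_eq_sum_add_ofDigits y (n + 1),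
    Finset.sum_range_succ, Finset.sum_range_succ, Finset.sum_congr rfl (fun i hi => by
      rw [ofDigitsTerm, ofDigitsTerm, h i (Finset.mem_range.1 hi)] :
      ∀ i ∈ Finset.range n, ofDigitsTerm x i = ofDigitsTerm y i)] at he
  simp only [ofDigitsTerm, hx, hy] at he
  have h1 := ofDigits_le_one fun i => x (i + (n + 1))
  have h2 := ofDigits_nonneg fun i => y (i + (n + 1))
  have h3 : (0 : ℝ) < ((2 : ℝ) ^ (n + 1))⁻¹ := by positivity
  have h4 : ofDigits (fun i => x (i + (n + 1))) = 1 + ofDigits fun i => y (i + (n + 1)) := by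
    norm_num at he
    have h5 : ((2 : ℝ) ^ (n + 1))⁻¹ * ofDigits (fun i => x (i + (n + 1))) =
        ((2 : ℝ) ^ (n + 1))⁻¹ * (1 + ofDigits fun i => y (i + (n + 1))) := by
      linarith
    exact mul_left_cancel₀ h3.ne' h5
  have h5 : ofDigits (fun i => x (i + (n + 1))) = 1 := by linarith
  have h6 : ofDigits (fun i => y (i + (n + 1))) = 0 := by linarith
  refine ⟨⟨n + 1, 1, fun k hk => ?_⟩, ⟨n + 1, 0, fun k hk => ?_⟩⟩
  · have := eq_one_of_ofDigits (k - (n + 1)) _ h5
    rwa [Nat.sub_add_cancel hk] at this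
  · have := eq_zero_of_ofDigits h6 (k - (n + 1))
    rwa [Nat.sub_add_cancel hk] at this

theorem mem_Ev {x y : Bs} (hxy : x ≠ y) (he : ofDigits x = ofDigits y) : x ∈ Ev := by
  classical
  have hex : ∃ n, x n ≠ y n := by
    by_contra hcon
    push Not at hcon
    exact hxy (funext hcon)
  have h1 := Nat.find_spec hex
  have h2 : ∀ i < Nat.find hex, x i = y i := fun i hi => not_not.1 (Nat.find_min hex hi)
  have h3 : (x (Nat.find hex) = 0 ∧ y (Nat.find hex) = 1) ∨
      (x (Nat.find hex) = 1 ∧ y (Nat.find hex) = 0) := by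
    generalize x (Nat.find hex) = a at h1
    generalize y (Nat.find hex) = b at h1
    revert a b
    decide
  rcases h3 with ⟨h3, h4⟩ | ⟨h3, h4⟩
  · exact (ev_aux h2 h3 h4 he).1
  · exact (ev_aux (fun i hi => (h2 i hi).symm) h4 h3 he.symm).2

theorem isClosed_init (s : List Bool) : IsClosed {x : Bs | Init (tp x) s} := by
  have : {x : Bs | Init (tp x) s} = ⋂ i, ⋂ _ : i < s.length,
      (fun x : Bs => x i) ⁻¹' {c | c = 1 ↔ s.getD i false = true} := by
    ext x
    simp [Init, tp]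
  rw [this]
  exact isClosed_iInter fun i => isClosed_iInter fun _ =>
    (isClosed_discrete _).preimage (continuous_apply i)

theorem isClosed_maps {S : List Bool → List Bool → Prop} (hS : IsCode S) :
    IsClosed {z : Bs × Bs | Maps S (tp z.1) (tp z.2)} := by
  have : {z : Bs × Bs | Maps S (tp z.1) (tp z.2)} = ⋂ n : ℕ,
      ⋃ p ∈ {p : List Bool × List Bool | p.2.length = n ∧ S p.1 p.2},
        {x : Bs | Init (tp x) p.1} ×ˢ {y : Bs | Init (tp y) p.2} := by
    ext z
    simp only [Maps, Set.mem_ofPred_eq, Set.mem_iInter, Set.mem_iUnion, Set.mem_prod,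
      exists_prop, Prod.exists]
    exact forall_congr' fun n => exists_congr fun s => exists_congr fun v => by tauto
  rw [this]
  refine isClosed_iInter fun n => Set.Finite.isClosed_biUnion ?_ fun p _ =>
    (isClosed_init p.1).prod (isClosed_init p.2)
  by_cases hex : ∃ p : List Bool × List Bool, p.2.length = n ∧ S p.1 p.2
  · obtain ⟨q, hq1, hq2⟩ := hex
    refine ((List.finite_length_eq Bool q.1.length).prod (List.finite_length_eq Bool n)).subset ?_
    rintro p ⟨hp1, hp2⟩
    exact ⟨(hS _ _ _ _ (hp1.trans hq1.symm) hp2 hq2).1, hp1⟩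
  · convert Set.finite_empty
    ext p
    simp only [Set.mem_ofPred_eq, Set.mem_empty_iff_false, iff_false]
    exact fun hp => hex ⟨p, hp⟩

theorem exists_ext {X : Set (Bs × Bs)} (hX : IsClosed X)
    (hinj : ∀ z ∈ X, ∀ z' ∈ X, ofDigits z.1 = ofDigits z'.1 → z = z') (n k : ℤ) :
    ∃ f : ℝ → ℝ, Continuous f ∧ ∀ z ∈ X, f (n + ofDigits z.1) = k + ofDigits z.2 := by
  have : CompactSpace X := isCompact_iff_compactSpace.1 hX.isCompact
  have hcd : Continuous (@ofDigits 2) := continuous_ofDigits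
  have he : Continuous fun z : X => (n : ℝ) + ofDigits z.1.1 :=
    continuous_const.add (hcd.comp (continuous_fst.comp continuous_subtype_val))
  have hf : Continuous fun z : X => (k : ℝ) + ofDigits z.1.2 :=
    continuous_const.add (hcd.comp (continuous_snd.comp continuous_subtype_val))
  have hemb := he.isClosedEmbedding fun z z' h => Subtype.ext
    (hinj _ z.2 _ z'.2 (add_left_cancel h))
  obtain ⟨g, hg⟩ := ContinuousMap.exists_extension' hemb ⟨_, hf⟩
  exact ⟨g, g.continuous, fun z hz => congrFun hg ⟨z, hz⟩⟩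

theorem exists_digits (a : ℝ) : ∃ (n : ℤ) (x : Bs), a = n + ofDigits x := by
  obtain ⟨x, -, hx⟩ := ofDigits_SurjOn (b := 2) (by norm_num)
    (⟨Int.fract_nonneg a, (Int.fract_lt_one a).le⟩ : Int.fract a ∈ Set.Icc (0 : ℝ) 1)
  exact ⟨⌊a⌋, x, by rw [hx, Int.floor_add_fract]⟩

theorem continuous_cover {W : Type} [Infinite W] (h : Principle W) :
    ∃ F : Set (ℝ → ℝ), #F < 𝔠 ∧ (∀ f ∈ F, Continuous f) ∧
      ∀ a b, ∃ f ∈ F, f a = b ∨ f b = a := by
  classical
  have hW : ℵ₀ ≤ #W := aleph0_le_mk W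
  have hWc := mk_lt_of_principle h
  obtain ⟨S, hS, hcov⟩ := h.cover
  -- the point `y0`
  have hY : #{y : Bs | ∃ w, ∃ q ∈ Ev, Maps (S w) (tp q) (tp y)} ≤ #W := by
    have hsub : {y : Bs | ∃ w, ∃ q ∈ Ev, Maps (S w) (tp q) (tp y)} ⊆ ⋃ a : W × Ev,
        {y | Maps (S a.1) (tp a.2) (tp y)} := by
      rintro y ⟨w, q, hq, hy⟩
      exact Set.mem_iUnion.2 ⟨(w, ⟨q, hq⟩), hy⟩
    refine (mk_le_mk_of_subset hsub).trans ((mk_iUnion_le _).trans ?_)
    have h2 : (⨆ a : W × Ev, #{y | Maps (S a.1) (tp a.2) (tp y)}) ≤ 1 := ciSup_le' fun a => by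
      rw [mk_le_one_iff_set_subsingleton]
      exact fun y hy y' hy' => tp_injective (hy.unique (hS _) hy')
    refine (mul_le_mul' le_rfl h2).trans ?_
    rw [mul_one, mk_prod, lift_id, lift_id]
    exact (mul_le_mul' le_rfl (countable_Ev.le_aleph0.trans hW)).trans (mul_eq_self hW).le
  obtain ⟨y0, hy0⟩ : ∃ y0 : Bs, y0 ∉ {y : Bs | ∃ w, ∃ q ∈ Ev, Maps (S w) (tp q) (tp y)} := by
    by_contra hall
    push Not at hall
    have h2 : #Bs ≤ #W := by
      rw [← mk_univ]
      exact (mk_le_mk_of_subset fun y _ => hall y).trans hY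
    have h3 : #Bs = 𝔠 := by simp [Bs]
    exact absurd hWc (not_lt.2 (h3 ▸ h2))
  let X : W → W → Set (Bs × Bs) := fun w w' =>
    {z | Maps (S w') (tp z.1) (tp z.2)} ∩ {z | Maps (S w) (tp z.1) (tp y0)}
  have hXc : ∀ w w', IsClosed (X w w') := fun w w' => (isClosed_maps (hS w')).inter
    ((isClosed_maps (hS w)).preimage (f := fun z : Bs × Bs => (z.1, y0)) (by fun_prop))
  have hXi : ∀ w w', ∀ z ∈ X w w', ∀ z' ∈ X w w', ofDigits z.1 = ofDigits z'.1 → z = z' := by
    intro w w' z hz z' hz' he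
    by_cases hzz : z.1 = z'.1
    · refine Prod.ext hzz (tp_injective ?_)
      have := hz'.1
      rw [Set.mem_ofPred_eq, ← hzz] at this
      exact hz.1.unique (hS w') this
    · exact absurd ⟨w, z.1, mem_Ev hzz he, hz.2⟩ hy0
  choose f hf1 hf2 using fun w w' n k => exists_ext (hXc w w') (hXi w w') n k
  let c : W → ℤ → ℝ → ℝ := fun w n _ =>
    n + ofDigits (if hx : ∃ x : Bs, Maps (S w) (tp y0) (tp x) then hx.choose else y0)
  let F : Set (ℝ → ℝ) := Set.range (fun a : W × W × ℤ × ℤ => f a.1 a.2.1 a.2.2.1 a.2.2.2) ∪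
    Set.range fun a : W × ℤ => c a.1 a.2
  have hZ : #ℤ ≤ #W := mk_le_aleph0.trans hW
  have key : ∀ a b : ℝ, ∀ (n k : ℤ) (x y : Bs) (w' : W), a = n + ofDigits x →
      b = k + ofDigits y → Maps (S w') (tp x) (tp y) → ∃ f ∈ F, f a = b ∨ f b = a := by
    rintro a b n k x y w' rfl rfl hm
    obtain ⟨w, hw | hw⟩ := hcov (tp x) (tp y0)
    · exact ⟨f w w' n k, Or.inl ⟨(w, w', n, k), rfl⟩, Or.inl (hf2 w w' n k (x, y) ⟨hm, hw⟩)⟩
    · refine ⟨c w n, Or.inr ⟨(w, n), rfl⟩, Or.inr ?_⟩
      have hx : ∃ x : Bs, Maps (S w) (tp y0) (tp x) := ⟨x, hw⟩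
      have : hx.choose = x := tp_injective (hx.choose_spec.unique (hS w) hw)
      simp only [c, dif_pos hx, this]
  refine ⟨F, ?_, ?_, fun a b => ?_⟩
  · refine ((mk_union_le _ _).trans (add_le_add mk_range_le mk_range_le)).trans_lt
      (lt_of_le_of_lt ?_ hWc)
    simp only [mk_prod, lift_id, lift_id]
    refine (add_le_add ((mul_le_mul' le_rfl (mul_le_mul' le_rfl (mul_le_mul' hZ hZ))))
      (mul_le_mul' le_rfl hZ)).trans ?_
    simp only [mul_eq_self hW, add_eq_self hW, le_refl]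
  · rintro g (⟨a, rfl⟩ | ⟨a, rfl⟩)
    · exact hf1 _ _ _ _
    · exact continuous_const
  · obtain ⟨n, x, hx⟩ := exists_digits a
    obtain ⟨k, y, hy⟩ := exists_digits b
    obtain ⟨w', hw | hw⟩ := hcov (tp x) (tp y)
    · exact key a b n k x y w' hx hy hw
    · obtain ⟨g, hg, h1⟩ := key b a k n y x w' hy hx hw
      exact ⟨g, hg, h1.symm⟩

end Pool.Agent.U775.CG
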