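import Pool.Agent.U775.CG.Neg

set_option autoImplicit false

/-!
# Consequences of the principle: differentiable functions
-/

namespace Pool.Agent.U775.CG

open Cardinal

section

variable {W : Type}

/-- the initial segment of length `n` -/
noncomputable def pref (x : ℕ → Prop) (n : ℕ) : List Bool :=
  open Classical in (List.range n).map fun i => decide (x i)

@[simp] theorem length_pref (x : ℕ → Prop) (n : ℕ) : (pref x n).length = n := by simp [pref]

theorem init_pref (x : ℕ → Prop) (n : ℕ) : Init x (pref x n) := by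
  classical
  intro i hi
  rw [length_pref] at hi
  rw [List.getD_eq_getElem _ _ (by simpa using hi)]
  simp [pref]

theorem Maps.unique {S : List Bool → List Bool → Prop} (hS : IsCode S) {x y y' : ℕ → Prop}
    (h : Maps S x y) (h' : Maps S x y') : y = y' := by
  funext i
  obtain ⟨s, v, h1, h2, h3, h4⟩ := h (i + 1)
  obtain ⟨s', v', g1, g2, g3, g4⟩ := h' (i + 1)
  obtain ⟨e1, e2⟩ := hS s v s' v' (h1.trans g1.symm) h2 g2
  have := e2 (h3.eq g3 e1 fun _ _ => Iff.rfl)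
  subst this
  exact propext (h4.agree g4 (by omega))

theorem mk_lt_of_principle (h : Principle W) : #W < 𝔠 := by
  by_contra hcon
  push Not at hcon
  have : #(ℕ → Prop) ≤ #W := by simpa using hcon
  obtain ⟨f⟩ := this
  have hne : Nonempty (ℕ → Prop) := ⟨fun _ => True⟩
  obtain ⟨x, y, hxy⟩ := h.noLip (fun w s v => s.length = v.length ∧
    Init (Function.invFun f w) v) fun w => ⟨fun s v s' v' hl h1 h2 =>
      ⟨h1.1.trans (hl.trans h2.1.symm), fun _ => h1.2.eq h2.2 hl fun _ _ => Iff.rfl⟩,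
      0, fun s v h1 => h1.1⟩
  refine (hxy (f y)).1 fun n => ⟨pref x n, pref y n, by simp, ⟨by simp, ?_⟩, init_pref _ _,
    init_pref _ _⟩
  rw [Function.leftInverse_invFun f.injective y]
  exact init_pref _ _

/-- By the cover property the continuum is at most the successor of `|W|`. -/
theorem continuum_le [Infinite W] (h : Principle W) : 𝔠 ≤ Order.succ #W := by
  by_contra hcon
  push Not at hcon
  have hW : ℵ₀ ≤ #W := aleph0_le_mk W
  obtain ⟨S, hS, hcov⟩ := h.cover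
  have h1 : Order.succ #W ≤ #(ℕ → Prop) := by simpa using hcon.le
  obtain ⟨X, hX⟩ := le_mk_iff_exists_set.1 h1
  have hY : #{y : ℕ → Prop | ∃ x ∈ X, ∃ w, Maps (S w) x y} ≤ Order.succ #W := by
    have hsub : {y : ℕ → Prop | ∃ x ∈ X, ∃ w, Maps (S w) x y} ⊆ ⋃ a : X × W,
        {y | Maps (S a.2) a.1 y} := by
      rintro y ⟨x, hx, w, hy⟩
      exact Set.mem_iUnion.2 ⟨(⟨x, hx⟩, w), hy⟩
    refine (mk_le_mk_of_subset hsub).trans ((mk_iUnion_le _).trans ?_)
    have h2 : (⨆ a : X × W, #{y | Maps (S a.2) a.1 y}) ≤ 1 := ciSup_le' fun a => by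
      rw [mk_le_one_iff_set_subsingleton]
      exact fun y hy y' hy' => hy.unique (hS _) hy'
    refine (mul_le_mul' le_rfl h2).trans ?_
    rw [mul_one, mk_prod, lift_id, lift_id, hX]
    exact (mul_le_mul' le_rfl (Order.le_succ _)).trans
      (mul_eq_self (hW.trans (Order.le_succ _))).le
  obtain ⟨y, hy⟩ : ∃ y : ℕ → Prop, y ∉ {y : ℕ → Prop | ∃ x ∈ X, ∃ w, Maps (S w) x y} := by
    by_contra hall
    push Not at hall
    have h2 : #(ℕ → Prop) ≤ Order.succ #W := by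
      rw [← mk_univ]
      exact (mk_le_mk_of_subset fun y _ => hall y).trans hY
    have h3 : 𝔠 ≤ Order.succ #W := by simpa using h2
    exact absurd hcon (not_lt.2 h3)
  have h3 : ∀ x : X, ∃ w, Maps (S w) y x := by
    intro x
    obtain ⟨w, hw | hw⟩ := hcov x.1 y
    · exact absurd ⟨x.1, x.2, w, hw⟩ hy
    · exact ⟨w, hw⟩
  choose g hg using h3
  have h4 : #X ≤ #W := mk_le_of_injective (f := g) fun x x' hxx => Subtype.ext
    ((hg x).unique (hS _) (hxx ▸ hg x'))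
  rw [hX] at h4
  exact absurd h4 (not_le.2 (Order.lt_succ _))

end

/-! ### The Cantor set -/

open Classical in
/-- the digit with the number `n` -/
noncomputable def dg (x : ℕ → Prop) (n : ℕ) : ℝ := if x n then (1 / 3) ^ n else 0

/-- a map onto a Cantor set -/
noncomputable def ct (x : ℕ → Prop) : ℝ := ∑' n, dg x n

theorem dg_nonneg (x : ℕ → Prop) (n : ℕ) : 0 ≤ dg x n := by
  unfold dg
  split <;> positivity

theorem dg_le (x : ℕ → Prop) (n : ℕ) : dg x n ≤ (1 / 3) ^ n := by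
  unfold dg
  split
  · exact le_rfl
  · positivity

theorem summable_dg (x : ℕ → Prop) : Summable (dg x) :=
  Summable.of_nonneg_of_le (dg_nonneg x) (dg_le x)
    (summable_geometric_of_lt_one (by norm_num) (by norm_num))

theorem tail_le (x y : ℕ → Prop) (n : ℕ) :
    |∑' k, (dg x (k + n) - dg y (k + n))| ≤ (3 / 2) * (1 / 3) ^ n := by
  have hs : Summable fun k : ℕ => (1 / 3 : ℝ) ^ (k + n) := by
    simpa [pow_add] using (summable_geometric_of_lt_one (r := (1 / 3 : ℝ)) (by norm_num)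
      (by norm_num)).mul_right ((1 / 3 : ℝ) ^ n)
  have hb : ∀ k, ‖dg x (k + n) - dg y (k + n)‖ ≤ (1 / 3 : ℝ) ^ (k + n) := by
    intro k
    rw [Real.norm_eq_abs, abs_le]
    constructor
    · linarith [dg_nonneg x (k + n), dg_le y (k + n)]
    · linarith [dg_le x (k + n), dg_nonneg y (k + n)]
  have h1 := tsum_of_norm_bounded hs.hasSum hb
  refine (Real.norm_eq_abs _ ▸ h1).trans (le_of_eq ?_)
  simp_rw [pow_add]
  rw [tsum_mul_right, tsum_geometric_of_lt_one (by norm_num) (by norm_num)]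
  norm_num

theorem ct_sub (x y : ℕ → Prop) (n : ℕ) : ct x - ct y =
    (∑ k ∈ Finset.range n, (dg x k - dg y k)) + ∑' k, (dg x (k + n) - dg y (k + n)) := by
  unfold ct
  rw [← (summable_dg x).tsum_sub (summable_dg y),
    ((summable_dg x).sub (summable_dg y)).sum_add_tsum_nat_add n]

theorem dg_eq {x y : ℕ → Prop} {n : ℕ} (h : x n ↔ y n) : dg x n = dg y n := by
  unfold dg
  by_cases hx : x n
  · simp [hx, h.1 hx]
  · simp [hx, mt h.2 hx]

theorem ct_close {x y : ℕ → Prop} {n : ℕ} (h : ∀ i < n, (x i ↔ y i)) :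
    |ct x - ct y| ≤ (3 / 2) * (1 / 3) ^ n := by
  rw [ct_sub x y n, Finset.sum_eq_zero, zero_add]
  · exact tail_le x y n
  · intro k hk
    rw [dg_eq (h k (Finset.mem_range.1 hk)), sub_self]

theorem ct_far {x y : ℕ → Prop} {n : ℕ} (h : ∀ i < n, (x i ↔ y i)) (hn : ¬ (x n ↔ y n)) :
    (1 / 2) * (1 / 3) ^ n ≤ |ct x - ct y| := by
  have h1 : |dg x n - dg y n| = (1 / 3) ^ n := by
    unfold dg
    by_cases hx : x n <;> by_cases hy : y n
    · exact absurd (iff_of_true hx hy) hn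
    · simp [hx, hy]
    · simp [hx, hy]
    · exact absurd (iff_of_false hx hy) hn
  rw [ct_sub x y (n + 1), Finset.sum_range_succ, Finset.sum_eq_zero, zero_add]
  · have h2 := tail_le x y (n + 1)
    have h3 := abs_sub_abs_le_abs_sub (dg x n - dg y n)
      (-(∑' k, (dg x (k + (n + 1)) - dg y (k + (n + 1)))))
    rw [abs_neg, sub_neg_eq_add, h1] at h3
    have h4 : (3 / 2 : ℝ) * (1 / 3) ^ (n + 1) = (1 / 2) * (1 / 3) ^ n := by
      rw [pow_succ]
      ring
    linarith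
  · intro k hk
    rw [dg_eq (h k (Finset.mem_range.1 hk)), sub_self]

/-! ### Differentiable functions -/

theorem exists_lip {f : ℝ → ℝ} {a : ℝ} (hf : DifferentiableAt ℝ f a) :
    ∃ j : ℕ, ∀ t, |t - a| ≤ 2 * (1 / 3) ^ j → |f t - f a| ≤ 3 ^ j * |t - a| := by
  obtain ⟨C, hC⟩ := (hf.hasDerivAt.isBigO_sub).bound
  obtain ⟨δ, hδ, hball⟩ := Metric.eventually_nhds_iff.1 hC
  obtain ⟨j1, hj1⟩ := pow_unbounded_of_one_lt C (by norm_num : (1 : ℝ) < 3)
  obtain ⟨j2, hj2⟩ := exists_pow_lt_of_lt_one (by positivity : 0 < δ / 2)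
    (by norm_num : (1 / 3 : ℝ) < 1)
  refine ⟨max j1 j2, fun t ht => ?_⟩
  have h1 : (1 / 3 : ℝ) ^ max j1 j2 ≤ (1 / 3) ^ j2 :=
    pow_le_pow_of_le_one (by norm_num) (by norm_num) (le_max_right _ _)
  have h2 : (3 : ℝ) ^ j1 ≤ 3 ^ max j1 j2 := pow_le_pow_right₀ (by norm_num) (le_max_left _ _)
  have h3 := hball (y := t) (by rw [Real.dist_eq]; linarith)
  rw [Real.norm_eq_abs, Real.norm_eq_abs] at h3
  exact h3.trans (mul_le_mul_of_nonneg_right (hj1.le.trans h2) (abs_nonneg _))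

/-- the part of the graph of `f` on which `f` is a Lipschitz function -/
def Rf (f : ℝ → ℝ) (j : ℕ) (s : List Bool) (x y : ℕ → Prop) : Prop :=
  (∀ t, |t - ct x| ≤ 2 * (1 / 3) ^ j → |f t - f (ct x)| ≤ 3 ^ j * |t - ct x|) ∧
    Init x s ∧ s.length = j ∧ f (ct x) = ct y

theorem Rf_lip {f : ℝ → ℝ} {j : ℕ} {s : List Bool} {x y x' y' : ℕ → Prop}
    (h : Rf f j s x y) (h' : Rf f j s x' y') {n : ℕ} (hn : ∀ i < n + (j + 1), (x i ↔ x' i)) :
    ∀ i < n, (y i ↔ y' i) := by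
  classical
  obtain ⟨h1, h2, h3, h4⟩ := h
  obtain ⟨g1, g2, g3, g4⟩ := h'
  have a1 : |ct x' - ct x| ≤ (3 / 2) * (1 / 3) ^ (n + (j + 1)) :=
    ct_close fun i hi => (hn i hi).symm
  have a2 : (3 / 2 : ℝ) * (1 / 3) ^ (n + (j + 1)) ≤ 2 * (1 / 3) ^ j := by
    have : (1 / 3 : ℝ) ^ (n + (j + 1)) ≤ (1 / 3) ^ j :=
      pow_le_pow_of_le_one (by norm_num) (by norm_num) (by omega)
    have h0 : (0 : ℝ) ≤ (1 / 3) ^ j := by positivity
    linarith
  have a3 := h1 _ (a1.trans a2)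
  rw [h4, g4] at a3
  have a4 : (3 : ℝ) ^ j * |ct x' - ct x| ≤ (1 / 2) * (1 / 3) ^ n := by
    refine (mul_le_mul_of_nonneg_left a1 (by positivity)).trans (le_of_eq ?_)
    rw [pow_add, pow_succ]
    have : (3 : ℝ) ^ j * (1 / 3) ^ j = 1 := by rw [← mul_pow]; norm_num
    linear_combination (1 / 2 * (1 / 3 : ℝ) ^ n) * this
  by_contra hcon
  push Not at hcon
  have hex : ∃ i, ¬ (y i ↔ y' i) := by
    obtain ⟨i, -, hi⟩ := hcon
    refine ⟨i, fun h => ?_⟩
    rcases hi with ⟨u, v⟩ | ⟨u, v⟩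
    · exact v (h.1 u)
    · exact u (h.2 v)
  have hmin := Nat.find_spec hex
  have hlt : Nat.find hex < n := by
    obtain ⟨i, hi, hi'⟩ := hcon
    refine (Nat.find_min' hex fun h => ?_).trans_lt hi
    rcases hi' with ⟨u, v⟩ | ⟨u, v⟩
    · exact v (h.1 u)
    · exact u (h.2 v)
  have a5 := ct_far (x := y) (y := y') (n := Nat.find hex)
    (fun i hi => not_not.1 (Nat.find_min hex hi)) hmin
  rw [abs_sub_comm] at a5
  have a6 : (1 / 3 : ℝ) ^ n < (1 / 3) ^ Nat.find hex :=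
    pow_lt_pow_right_of_lt_one₀ (by norm_num) (by norm_num) hlt
  linarith

/-- the code of `Rf` -/
def Tf (f : ℝ → ℝ) (j : ℕ) (s : List Bool) (s' v : List Bool) : Prop :=
  ∃ x y, Rf f j s x y ∧ Init x s' ∧ Init y v ∧ s'.length = v.length + (j + 1)

theorem Tf_isCode (f : ℝ → ℝ) (j : ℕ) (s : List Bool) : IsCode (Tf f j s) := by
  rintro s' v s'' v' hl ⟨x, y, h1, h2, h3, h4⟩ ⟨x', y', g1, g2, g3, g4⟩
  refine ⟨by omega, fun hs => ?_⟩
  subst hs
  exact h3.eq g3 hl (Rf_lip h1 g1 fun i hi => h2.agree g2 (by omega))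

theorem Tf_maps {f : ℝ → ℝ} {j : ℕ} {s : List Bool} {x y : ℕ → Prop} (h : Rf f j s x y) :
    Maps (Tf f j s) x y := fun n => ⟨pref x (n + (j + 1)), pref y n, length_pref _ _,
  ⟨x, y, h, init_pref _ _, init_pref _ _, by simp⟩, init_pref _ _, init_pref _ _⟩

theorem no_differentiable {W : Type} [Infinite W] (h : Principle W) :
    ¬ ∃ F : Set (ℝ → ℝ), #F < 𝔠 ∧ (∀ f ∈ F, Differentiable ℝ f) ∧
      ∀ a b, ∃ f ∈ F, f a = b ∨ f b = a := by
  classical
  rintro ⟨F, hF, hd, hcov⟩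
  have hW : ℵ₀ ≤ #W := aleph0_le_mk W
  have hFW : #F ≤ #W := Order.lt_succ_iff.1 (hF.trans_le (continuum_le h))
  have hcard : #(F × ℕ × List Bool) ≤ #W := by
    rw [mk_prod, lift_id, lift_id]
    exact (mul_le_mul' hFW (mk_le_aleph0.trans hW)).trans (mul_eq_self hW).le
  obtain ⟨e⟩ := hcard
  let T : W → List Bool → List Bool → Prop := fun w =>
    if hw : ∃ a, e a = w then Tf hw.choose.1.1 hw.choose.2.1 hw.choose.2.2 else fun _ _ => False
  have hT : ∀ a, T (e a) = Tf a.1.1 a.2.1 a.2.2 := by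
    intro a
    have hw : ∃ b, e b = e a := ⟨a, rfl⟩
    have : T (e a) = Tf hw.choose.1.1 hw.choose.2.1 hw.choose.2.2 := dif_pos hw
    rw [this, e.injective hw.choose_spec]
  obtain ⟨x, y, hxy⟩ := h.noLip T fun w => by
    by_cases hw : ∃ a, e a = w
    · obtain ⟨a, rfl⟩ := hw
      rw [hT]
      exact ⟨Tf_isCode _ _ _, a.2.1 + 1, fun s v hsv => hsv.choose_spec.choose_spec.2.2.2⟩
    · have : T w = fun _ _ => False := dif_neg hw
      rw [this]
      exact ⟨fun _ _ _ _ _ h => h.elim, 0, fun _ _ h => h.elim⟩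
  have key : ∀ x y : ℕ → Prop, (∀ w, ¬ Maps (T w) x y) → ∀ f ∈ F, f (ct x) ≠ ct y := by
    intro x y hn f hf hfx
    obtain ⟨j, hj⟩ := exists_lip (hd f hf (ct x))
    refine hn (e (⟨f, hf⟩, j, pref x j)) ?_
    rw [hT]
    exact Tf_maps ⟨hj, init_pref _ _, length_pref _ _, hfx⟩
  obtain ⟨f, hf, h1 | h1⟩ := hcov (ct x) (ct y)
  · exact key x y (fun w => (hxy w).1) f hf h1
  · exact key y x (fun w => (hxy w).2) f hf h1

end Pool.Agent.U775.CG
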